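import Mathlib
import Pool.Agent.TH932.S2.Bsm3

set_option autoImplicit false

/-!
# Differences of powers of coprime bases
-/

namespace Pool.Agent.TH932.S2.F

open Filter Topology Pool.Agent.TH932.Abs Pool.Agent.TH932.Germs Pool.Agent.TH932.Chi
open Pool.Agent.TH932.Scale

section pos
variable {L : ℕ → ℝ} {hL : Tendsto L atTop atTop}

/-- all exponents have positive first coordinate -/
def Ps (f : Rg hL) : Prop := ∀ g, f.coeff g ≠ 0 → 0 < g.1

lemma Ps.zero : Ps (0 : Rg hL) := fun g hg => absurd (by simp) hg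

lemma Ps.add {f f' : Rg hL} (hf : Ps f) (hf' : Ps f') : Ps (f + f') := by
  intro g hg
  by_cases h1 : f.coeff g = 0
  · apply hf'
    intro h2
    apply hg
    rw [AddMonoidAlgebra.coeff_add, Finsupp.add_apply, h1, h2, add_zero]
  · exact hf g h1

lemma Ps.neg {f : Rg hL} (hf : Ps f) : Ps (-f) := by
  intro g hg
  apply hf
  intro h
  apply hg
  rw [AddMonoidAlgebra.coeff_neg, Finsupp.neg_apply, h, neg_zero]

lemma Ps.single {g : ℝ × ℝ} (a : KK L hL) (hg : 0 < g.1) :
    Ps (AddMonoidAlgebra.single g a : Rg hL) := by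
  intro g' hg'
  rw [AddMonoidAlgebra.coeff_single] at hg'
  have : g' = g := by
    by_contra hne
    exact hg' (Finsupp.single_eq_of_ne hne)
  rw [this]; exact hg

lemma Ps.single_mul {f : Rg hL} {k : ℝ × ℝ} (hk : 0 ≤ k.1) (a : KK L hL) (hf : Ps f) :
    Ps (AddMonoidAlgebra.single k a * f) := by
  have e : AddMonoidAlgebra.single k a * f
      = ∑ g ∈ f.coeff.support, AddMonoidAlgebra.single (k + g) (a * f.coeff g) := by
    conv_lhs => rw [sum_single2 hL f]
    rw [Finset.mul_sum]
    exact Finset.sum_congr rfl fun g _ => by rw [AddMonoidAlgebra.single_mul_single]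
  rw [e]
  refine Finset.sum_induction _ (fun f => Ps f) (fun _ _ => Ps.add) Ps.zero ?_
  intro g hg
  apply Ps.single
  have := hf g (Finsupp.mem_support_iff.1 hg)
  simp only [Prod.fst_add]
  linarith

lemma pow_form {g : ℝ × ℝ} (hg : 0 < g.1) (κ : KK L hL) (r : ℕ) :
    ∃ f : Rg hL, Ps f ∧ (AddMonoidAlgebra.single g κ - 1 : Rg hL) ^ r = (-1) ^ r + f := by
  induction r with
  | zero => exact ⟨0, Ps.zero, by simp⟩
  | succ r ih =>
    obtain ⟨f, hf, h⟩ := ih
    refine ⟨AddMonoidAlgebra.single g κ * (-1) ^ r + (AddMonoidAlgebra.single g κ * f + -f), ?_, ?_⟩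
    · refine Ps.add ?_ ((hf.single_mul hg.le κ).add hf.neg)
      rcases neg_one_pow_eq_or (Rg hL) r with h1 | h1
      · rw [h1, mul_one]; exact Ps.single κ hg
      · rw [h1, mul_neg, mul_one]; exact (Ps.single κ hg).neg
    · rw [pow_succ, h]; ring

lemma coeff_pow {g : ℝ × ℝ} (hg : 0 < g.1) (κ : KK L hL) (r : ℕ) :
    ((AddMonoidAlgebra.single g κ - 1 : Rg hL) ^ r).coeff 0 ≠ 0 := by
  obtain ⟨f, hf, h⟩ := pow_form hg κ r
  have h1 : f.coeff 0 = 0 := by
    by_contra h2
    exact lt_irrefl _ (hf 0 h2)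
  rw [h, AddMonoidAlgebra.coeff_add, Finsupp.add_apply, h1, add_zero]
  rcases neg_one_pow_eq_or (Rg hL) r with h2 | h2
  · rw [h2, AddMonoidAlgebra.one_def, AddMonoidAlgebra.coeff_single, Finsupp.single_eq_same]
    exact one_ne_zero
  · rw [h2, AddMonoidAlgebra.coeff_neg, Finsupp.neg_apply, AddMonoidAlgebra.one_def,
      AddMonoidAlgebra.coeff_single, Finsupp.single_eq_same]
    exact neg_ne_zero.2 one_ne_zero

end pos

/-- **Powers of coprime bases are not close.** -/
theorem pow_gap (hsu : SUStmt) (hkp : KPStmt) {p q : ℕ} (hp : 2 ≤ p) (hq : 2 ≤ q)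
    (hpq : IsCoprime (q : ℤ) (p : ℤ)) {ε : ℝ} (hε : 0 < ε) : ∃ n0 : ℕ, ∀ a b : ℕ, n0 ≤ a →
      (p : ℝ) ^ a * Real.exp (-(ε * a)) ≤ |(p : ℝ) ^ a - (q : ℝ) ^ b| := by
  by_contra hcon
  push Not at hcon
  choose a b ha hab using hcon
  have hlp : 0 < Real.log p := Real.log_pos (by exact_mod_cast hp)
  have hlq : 0 < Real.log q := Real.log_pos (by exact_mod_cast hq)
  have hp0 : (0 : ℝ) < p := by
    have : 0 < p := by omega
    exact_mod_cast this
  have hq0 : (0 : ℝ) < q := by
    have : 0 < q := by omega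
    exact_mod_cast this
  set L : ℕ → ℝ := fun n => (a n : ℝ) with hLd
  have hL : Tendsto L atTop atTop :=
    tendsto_natCast_atTop_atTop.comp (tendsto_atTop_mono ha tendsto_id)
  -- sizes
  have hq2 : ∀ n, (q : ℝ) ^ b n ≤ 2 * (p : ℝ) ^ a n := by
    intro n
    have h1 := (abs_lt.1 (hab n)).1
    have h2 : Real.exp (-(ε * a n)) ≤ 1 := by
      rw [Real.exp_le_one_iff]
      have : 0 ≤ ε * (a n : ℝ) := by positivity
      linarith
    have h3 : (0 : ℝ) < (p : ℝ) ^ a n := by positivity
    nlinarith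
  have hb : ∀ n, (b n : ℝ) * Real.log q ≤ Real.log 2 + a n * Real.log p := by
    intro n
    have h1 := Real.log_le_log (by positivity) (hq2 n)
    rwa [Real.log_pow, Real.log_mul (by norm_num) (by positivity), Real.log_pow] at h1
  obtain ⟨o, _, _, ho⟩ := exists_st (L := L) hL (a := fun n => (b n : ℝ))
    (A := (Real.log 2 + Real.log p) / Real.log q) (by
      filter_upwards [ev_of_atTop (hL.eventually_ge_atTop 1)] with n hn
      refine ⟨by positivity, ?_⟩
      have h1 := hb n
      have h2 : 0 < Real.log 2 := Real.log_pos (by norm_num)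
      rw [div_mul_eq_mul_div, le_div_iff₀ hlq]
      have : L n = a n := rfl
      rw [this] at hn ⊢
      nlinarith)
  obtain ⟨κ, hκ0, hκ⟩ := exists_const2 hL hp hq 1 o (fun n => (a n : ℤ)) (fun n => (b n : ℤ)) (by
      intro η hη
      filter_upwards [L_nonneg hL] with n hn
      have : L n = a n := rfl
      rw [this] at hn ⊢
      simp only [Int.cast_natCast, one_mul, sub_self, abs_zero]
      positivity) (by
      intro η hη
      filter_upwards [ho η hη] with n hn
      simpa using hn)
  obtain ⟨K0, hK0⟩ := hkp p q hp hq hpq L hL .I Unit inferInstance (fun _ => 1) 0 (by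
    intro A hA j
    have h1 : ev2 hL hp hq (A ()) = 0 := by simpa using hA
    exact hsu p q hp hq hpq L hL _ h1) (by
    intro u j
    have := (filt_v hL hp hq u).alg_mem 1
    rw [map_one] at this
    simpa using this) (by
    intro j
    have := Sint.alg hL hp hq 1
    simpa using this)
  set A0 : Rg hL := AddMonoidAlgebra.single ((1 : ℝ), o) κ - 1 with hA0
  have hev : ev2 hL hp hq A0 ∈ Sv L p q .I ε := by
    have e1 : ev2 hL hp hq A0
        = gm (fun n => (p : ℚ) ^ (a n : ℤ) / (q : ℚ) ^ (b n : ℤ) - 1) := by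
      rw [hA0, map_sub, map_one, ev2_single, ← hκ]
      have : (1 : GG) = gm (fun _ => (1 : ℚ)) := rfl
      rw [this, gm_sub]
    rw [e1]
    unfold Sv
    rw [mem_SS]
    intro η hη
    have hT := near_const hL (Real.log 2) η hη
    filter_upwards [hT, L_nonneg hL, near_const hL (Real.log 2) ε hε] with n h1 h2 h10
    have h3 := (abs_le.1 h1).2
    have h11 := (abs_le.1 h10).2
    simp only [zero_mul, sub_zero] at h3 h11
    simp only [Rv, Rinf]
    push_cast
    rw [zpow_natCast, zpow_natCast]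
    have hqb : (0 : ℝ) < (q : ℝ) ^ b n := by positivity
    have hpa : (0 : ℝ) < (p : ℝ) ^ a n := by positivity
    have e2 : (p : ℝ) ^ a n / (q : ℝ) ^ b n - 1 = ((p : ℝ) ^ a n - (q : ℝ) ^ b n) / (q : ℝ) ^ b n := by
      field_simp
    rw [e2, abs_div, abs_of_pos hqb, div_le_iff₀ hqb]
    have h4 := (hab n).le
    -- the case distinction on the size of `q ^ b`
    have h5 : (p : ℝ) ^ a n * Real.exp (-(ε * a n)) ≤ Real.exp (-(ε - η) * L n) * (q : ℝ) ^ b n := by
      by_cases h6 : (p : ℝ) ^ a n ≤ 2 * (q : ℝ) ^ b n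
      · have e3 : Real.exp (-(ε - η) * L n) = Real.exp (η * L n) * Real.exp (-(ε * a n)) := by
          rw [← Real.exp_add]
          congr 1
          have : L n = a n := rfl
          rw [this]; ring
        rw [e3]
        have h7 : (2 : ℝ) ≤ Real.exp (η * L n) := by
          rw [← Real.exp_log (show (0 : ℝ) < 2 by norm_num)]
          exact Real.exp_le_exp.2 h3
        calc (p : ℝ) ^ a n * Real.exp (-(ε * a n))
            ≤ 2 * (q : ℝ) ^ b n * Real.exp (-(ε * a n)) := by gcongr
          _ ≤ Real.exp (η * L n) * (q : ℝ) ^ b n * Real.exp (-(ε * a n)) := by gcongr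
          _ = _ := by ring
      · exfalso
        push Not at h6
        have h7 := (abs_lt.1 (hab n)).2
        have h8 : Real.exp (-(ε * a n)) ≤ 1 / 2 := by
          have e3 : Real.exp (-(ε * a n)) ≤ Real.exp (-Real.log 2) := by
            apply Real.exp_le_exp.2
            have : L n = a n := rfl
            rw [this] at h11
            linarith
          rw [Real.exp_neg (Real.log 2), Real.exp_log (by norm_num)] at e3
          linarith
        have h9 : (p : ℝ) ^ a n * Real.exp (-(ε * a n)) ≤ (p : ℝ) ^ a n * (1 / 2) := by gcongr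
        linarith
    exact h4.trans h5
  -- powers
  obtain ⟨r, hr⟩ := exists_nat_gt (K0 / ε)
  rw [div_lt_iff₀ hε] at hr
  have h1 := (filt_v hL hp hq .I).pow_mem hev r
  rw [← map_pow] at h1
  have h2 := hK0 (fun _ => A0 ^ r) (ε * r) (by simpa using h1) () 0 (coeff_pow one_pos κ r)
  rw [lv_zero] at h2
  linarith

end Pool.Agent.TH932.S2.F
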