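import Mathlib
import Pool.Agent.TH932.Words

set_option autoImplicit false

/-!
# Segments of integer sequences driven by a word; shadow orbits
-/

namespace Pool.Agent.TH932.S2.F

open Pool.Agent.TH932.Words

/-- the affine maps -/
structure Dt (α : Type*) where
  p : ℕ
  q : ℕ
  M : ℕ
  δ : α → ℕ
  β : α → ℤ
  hp : 2 ≤ p
  hq : 2 ≤ q
  hpq : IsCoprime (q : ℤ) (p : ℤ)
  hpM : p ≤ M
  hqM : ∀ a, q ^ δ a ≤ M
  hβM : ∀ a, |β a| ≤ M

variable {α : Type*}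

/-- a segment of length `H` of a sequence of distinct integers with
`p y (k+1) = q ^ δ (w k) * y k + d * β (w k)` -/
structure FS (T : Dt α) where
  w : ℕ → α
  y : ℕ → ℤ
  d : ℤ
  H : ℕ
  hd : IsCoprime d (T.p : ℤ)
  hrec : ∀ k < H, (T.p : ℤ) * y (k + 1) = (T.q : ℤ) ^ T.δ (w k) * y k + d * T.β (w k)
  hinj : ∀ i j, i < j → j ≤ H → y i ≠ y j
  hap : ∀ a b, a < b → ∃ k, w (a + k) ≠ w (b + k)

namespace Dt
variable (T : Dt α)

lemma hM1 : 1 ≤ T.M := by have := T.hp; have := T.hpM; omega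
lemma p_ne : (T.p : ℤ) ≠ 0 := by have := T.hp; omega
lemma q_ne : (T.q : ℤ) ≠ 0 := by have := T.hq; omega
lemma p_bound (k : ℕ) : T.p ^ k ≤ T.M ^ k := Nat.pow_le_pow_left T.hpM k

lemma cop (a b : ℕ) : IsCoprime ((T.p : ℤ) ^ a) ((T.q : ℤ) ^ b) :=
  (T.hpq.symm.pow_left).pow_right

/-- the size of shadows -/
def W (h : ℕ) : ℤ := 3 * (2 * T.M : ℤ) ^ (2 * h)

lemma W_pos (h : ℕ) : 1 ≤ T.W h := by
  have hMz : (1 : ℤ) ≤ T.M := by exact_mod_cast T.hM1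
  unfold W
  have : (1 : ℤ) ≤ (2 * T.M : ℤ) ^ (2 * h) := one_le_pow₀ (by linarith)
  linarith

end Dt

namespace FS

variable {T : Dt α} (Z : FS T)

lemma d_ne : Z.d ≠ 0 := by
  intro h
  have h1 := Z.hd
  rw [h, isCoprime_zero_left] at h1
  have h2 := T.hp
  rcases Int.isUnit_iff.1 h1 with h3 | h3 <;> omega

lemma d_abs : 1 ≤ |Z.d| := Int.one_le_abs Z.d_ne

/-- cumulative exponents -/
def oo (k : ℕ) : ℕ := ∑ i ∈ Finset.range k, T.δ (Z.w i)

lemma oo_succ (k : ℕ) : Z.oo (k + 1) = Z.oo k + T.δ (Z.w k) := by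
  unfold oo; rw [Finset.sum_range_succ]

lemma oo_mono : Monotone Z.oo := monotone_nat_of_le_succ fun k => by rw [oo_succ]; omega

/-- the constant term of a segment of given length -/
def Qk (i : ℕ) : ℕ → ℤ
  | 0 => 0
  | k + 1 => (T.q : ℤ) ^ T.δ (Z.w (i + k)) * Qk i k + (T.p : ℤ) ^ k * T.β (Z.w (i + k))

/-- the constant term of a segment -/
def Q (i j : ℕ) : ℤ := Z.Qk i (j - i)

lemma Q_self (i : ℕ) : Z.Q i i = 0 := by unfold Q; simp [Qk]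

lemma Q_add (i k : ℕ) : Z.Q i (i + k + 1)
    = (T.q : ℤ) ^ T.δ (Z.w (i + k)) * Z.Q i (i + k) + (T.p : ℤ) ^ k * T.β (Z.w (i + k)) := by
  unfold Q
  rw [show i + k + 1 - i = k + 1 by omega, show i + k - i = k by omega, Qk]

lemma Q_succ (i : ℕ) : Z.Q i (i + 1) = T.β (Z.w i) := by
  have := Z.Q_add i 0
  simpa [Q_self] using this

lemma Q_comp {i j k : ℕ} (hij : i ≤ j) (hjk : j ≤ k) :
    Z.Q i k = (T.q : ℤ) ^ (Z.oo k - Z.oo j) * Z.Q i j + (T.p : ℤ) ^ (j - i) * Z.Q j k := by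
  obtain ⟨m, rfl⟩ := Nat.exists_eq_add_of_le hjk
  clear hjk
  induction m with
  | zero => simp [Q_self]
  | succ m ih =>
    obtain ⟨e, rfl⟩ := Nat.exists_eq_add_of_le hij
    have h1 := Z.Q_add i (e + m)
    have h2 := Z.Q_add (i + e) m
    have m1 := Z.oo_mono (show i + e ≤ i + e + m by omega)
    have e1 : Z.oo (i + e + m + 1) - Z.oo (i + e)
        = (Z.oo (i + e + m) - Z.oo (i + e)) + T.δ (Z.w (i + e + m)) := by rw [oo_succ]; omega
    rw [← add_assoc] at h1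
    rw [← add_assoc, h1, h2, e1, ih, pow_add, pow_add, Nat.add_sub_cancel_left]
    ring

/-- the relation between terms -/
lemma y_rel {i j : ℕ} (hij : i ≤ j) (hj : j ≤ Z.H) : (T.p : ℤ) ^ (j - i) * Z.y j
    = (T.q : ℤ) ^ (Z.oo j - Z.oo i) * Z.y i + Z.d * Z.Q i j := by
  obtain ⟨m, rfl⟩ := Nat.exists_eq_add_of_le hij
  clear hij
  induction m with
  | zero => simp [Q_self]
  | succ m ih =>
    have h1 := ih (by omega)
    have h2 := Z.hrec (i + m) (by omega)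
    have h3 := Z.Q_add i m
    have m1 := Z.oo_mono (show i ≤ i + m by omega)
    have e1 : Z.oo (i + m + 1) - Z.oo i
        = (Z.oo (i + m) - Z.oo i) + T.δ (Z.w (i + m)) := by rw [oo_succ]; omega
    rw [← add_assoc, h3, e1, show i + m + 1 - i = m + 1 by omega, pow_succ, pow_add]
    rw [Nat.add_sub_cancel_left] at h1
    linear_combination (T.p : ℤ) ^ m * h2 + (T.q : ℤ) ^ T.δ (Z.w (i + m)) * h1

lemma word_dep {l i j : ℕ} (h : Eqv Z.w l i j) :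
    Z.oo (i + l) - Z.oo i = Z.oo (j + l) - Z.oo j ∧ Z.Q i (i + l) = Z.Q j (j + l) := by
  induction l with
  | zero => simp [Q_self]
  | succ l ih =>
    obtain ⟨h1, h2⟩ := ih (h.mono (Nat.le_succ l))
    have h3 := h l (Nat.lt_succ_self l)
    have m1 := Z.oo_mono (Nat.le_add_right i l)
    have m2 := Z.oo_mono (Nat.le_add_right j l)
    constructor
    · rw [← add_assoc, ← add_assoc, oo_succ, oo_succ, h3]
      omega
    · rw [← add_assoc, ← add_assoc, Z.Q_add, Z.Q_add, h3, h2]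

lemma q_bound {i j : ℕ} (hij : i ≤ j) : T.q ^ (Z.oo j - Z.oo i) ≤ T.M ^ (j - i) := by
  obtain ⟨k, rfl⟩ := Nat.exists_eq_add_of_le hij
  rw [Nat.add_sub_cancel_left]
  induction k with
  | zero => simp
  | succ k ih =>
    have m1 := Z.oo_mono (Nat.le_add_right i k)
    rw [← add_assoc, oo_succ, show Z.oo (i + k) + T.δ (Z.w (i + k)) - Z.oo i
      = (Z.oo (i + k) - Z.oo i) + T.δ (Z.w (i + k)) by omega, pow_add, pow_succ]
    exact Nat.mul_le_mul (ih (by omega)) (T.hqM _)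

lemma Q_bound {i j : ℕ} (hij : i ≤ j) : |Z.Q i j| ≤ (2 * T.M : ℤ) ^ (j - i) := by
  obtain ⟨k, rfl⟩ := Nat.exists_eq_add_of_le hij
  rw [Nat.add_sub_cancel_left]
  have hM := T.hM1
  have hMz : (1 : ℤ) ≤ T.M := by exact_mod_cast hM
  induction k with
  | zero => simp [Q_self]
  | succ k ih =>
    rw [← add_assoc, Z.Q_add]
    have h1 : |((T.q : ℤ)) ^ T.δ (Z.w (i + k))| ≤ T.M := by
      rw [abs_of_nonneg (by positivity)]
      exact_mod_cast T.hqM _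
    have h2 : |((T.p : ℤ)) ^ k| ≤ (2 * T.M : ℤ) ^ k := by
      rw [abs_of_nonneg (by positivity)]
      have h3 : ((T.p : ℤ)) ^ k ≤ (T.M : ℤ) ^ k := by exact_mod_cast T.p_bound k
      refine h3.trans ?_
      gcongr; linarith
    calc |(T.q : ℤ) ^ T.δ (Z.w (i + k)) * Z.Q i (i + k) + (T.p : ℤ) ^ k * T.β (Z.w (i + k))|
        ≤ |(T.q : ℤ) ^ T.δ (Z.w (i + k)) * Z.Q i (i + k)|
          + |(T.p : ℤ) ^ k * T.β (Z.w (i + k))| := abs_add_le _ _
      _ ≤ T.M * (2 * T.M : ℤ) ^ k + (2 * T.M : ℤ) ^ k * T.M := by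
          rw [abs_mul, abs_mul]
          have := ih (by omega)
          have := T.hβM (Z.w (i + k))
          gcongr
      _ = (2 * T.M : ℤ) ^ (k + 1) := by ring

lemma y_bound (a k : ℕ) (hk : a + k ≤ Z.H) :
    |Z.y (a + k)| + |Z.d| ≤ (2 * T.M : ℤ) ^ k * (|Z.y a| + |Z.d|) := by
  have hMz : (1 : ℤ) ≤ T.M := by exact_mod_cast T.hM1
  induction k with
  | zero => simp
  | succ k ih =>
    have ih := ih (by omega)
    have h1 : |Z.y (a + k + 1)| ≤ |(T.p : ℤ) * Z.y (a + k + 1)| := by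
      rw [abs_mul]
      have : (1 : ℤ) ≤ |(T.p : ℤ)| := Int.one_le_abs T.p_ne
      nlinarith [abs_nonneg (Z.y (a + k + 1))]
    have h2 : |(T.p : ℤ) * Z.y (a + k + 1)| ≤ T.M * |Z.y (a + k)| + |Z.d| * T.M := by
      rw [Z.hrec (a + k) (by omega)]
      refine (abs_add_le _ _).trans ?_
      rw [abs_mul, abs_mul]
      have h1 : |((T.q : ℤ)) ^ T.δ (Z.w (a + k))| ≤ T.M := by
        rw [abs_of_nonneg (by positivity)]
        exact_mod_cast T.hqM _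
      have := T.hβM (Z.w (a + k))
      gcongr
    have h3 : |Z.y (a + k + 1)| + |Z.d| ≤ 2 * T.M * (|Z.y (a + k)| + |Z.d|) := by
      nlinarith [abs_nonneg (Z.y (a + k)), abs_nonneg Z.d]
    rw [← add_assoc]
    calc |Z.y (a + k + 1)| + |Z.d| ≤ 2 * T.M * (|Z.y (a + k)| + |Z.d|) := h3
      _ ≤ 2 * T.M * ((2 * T.M : ℤ) ^ k * (|Z.y a| + |Z.d|)) := by gcongr
      _ = (2 * T.M : ℤ) ^ (k + 1) * (|Z.y a| + |Z.d|) := by ring

lemma dvd_of_eqv {l s t : ℕ} (h : Eqv Z.w l s t) (hs : s + l ≤ Z.H) (ht : t + l ≤ Z.H) :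
    (T.p : ℤ) ^ l ∣ Z.y t - Z.y s := by
  obtain ⟨h1, h2⟩ := Z.word_dep h
  have e1 := Z.y_rel (Nat.le_add_right s l) hs
  have e2 := Z.y_rel (Nat.le_add_right t l) ht
  rw [Nat.add_sub_cancel_left] at e1 e2
  rw [← h1, ← h2] at e2
  have h3 : (T.q : ℤ) ^ (Z.oo (s + l) - Z.oo s) * (Z.y t - Z.y s)
      = (T.p : ℤ) ^ l * (Z.y (t + l) - Z.y (s + l)) := by
    linear_combination e1 - e2
  exact (T.cop l _).dvd_of_dvd_mul_left ⟨_, h3⟩

/-- a near repetition gives a rational shadow of small height -/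
lemma shadow {l h i s t : ℕ} (his : i ≤ s) (hst : s < t) (hth : t ≤ i + h)
    (hE : Eqv Z.w l s t) (hH : i + h + l ≤ Z.H) : ∃ m e : ℤ, e ≠ 0 ∧ |m| ≤ T.W h ∧ |e| ≤ T.W h ∧
      (T.p : ℤ) ^ l ∣ e * Z.y i - Z.d * m ∧ e * Z.y i - Z.d * m ≠ 0 := by
  have hMz : (1 : ℤ) ≤ T.M := by exact_mod_cast T.hM1
  set A : ℤ := (T.q : ℤ) ^ (Z.oo t - Z.oo s) with hA
  set N : ℤ := (T.p : ℤ) ^ (t - s) with hN
  set A' : ℤ := (T.q : ℤ) ^ (Z.oo s - Z.oo i) with hA'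
  set N' : ℤ := (T.p : ℤ) ^ (s - i) with hN'
  have q1 : N * Z.y t = A * Z.y s + Z.d * Z.Q s t := Z.y_rel hst.le (by omega)
  have q2 : N' * Z.y s = A' * Z.y i + Z.d * Z.Q i s := Z.y_rel his (by omega)
  have hkey : (A - N) * A' * Z.y i - Z.d * -((A - N) * Z.Q i s + N' * Z.Q s t)
      = N' * N * (Z.y t - Z.y s) := by
    linear_combination (-N') * q1 + (N - A) * q2
  have hne : Z.y t - Z.y s ≠ 0 := by
    rw [sub_ne_zero]
    exact (Z.hinj s t hst (by omega)).symm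
  have hN0 : N ≠ 0 := pow_ne_zero _ T.p_ne
  have hN0' : N' ≠ 0 := pow_ne_zero _ T.p_ne
  have hA0' : A' ≠ 0 := pow_ne_zero _ T.q_ne
  have hAN : A - N ≠ 0 := by
    intro h0
    have h1 : A = N := by linarith
    have h2 : IsCoprime N A := T.cop _ _
    rw [h1] at h2
    have h3 : IsUnit N := isCoprime_self.1 h2
    have h4 : (1 : ℤ) < N := by
      rw [hN]
      apply one_lt_pow₀
      · have := T.hp; exact_mod_cast (show 1 < T.p by omega)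
      · omega
    rcases Int.isUnit_iff.1 h3 with h5 | h5 <;> omega
  -- bounds
  have bA : |A| ≤ (T.M : ℤ) ^ h := by
    rw [hA, abs_of_nonneg (by positivity)]
    have h1 : (T.q ^ (Z.oo t - Z.oo s) : ℕ) ≤ T.M ^ h :=
      (Z.q_bound hst.le).trans (Nat.pow_le_pow_right T.hM1 (by omega))
    exact_mod_cast h1
  have bA' : |A'| ≤ (T.M : ℤ) ^ h := by
    rw [hA', abs_of_nonneg (by positivity)]
    have h1 : (T.q ^ (Z.oo s - Z.oo i) : ℕ) ≤ T.M ^ h :=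
      (Z.q_bound his).trans (Nat.pow_le_pow_right T.hM1 (by omega))
    exact_mod_cast h1
  have bN : |N| ≤ (T.M : ℤ) ^ h := by
    rw [hN, abs_of_nonneg (by positivity)]
    have h1 : (T.p ^ (t - s) : ℕ) ≤ T.M ^ h :=
      (T.p_bound _).trans (Nat.pow_le_pow_right T.hM1 (by omega))
    exact_mod_cast h1
  have bN' : |N'| ≤ (T.M : ℤ) ^ h := by
    rw [hN', abs_of_nonneg (by positivity)]
    have h1 : (T.p ^ (s - i) : ℕ) ≤ T.M ^ h :=
      (T.p_bound _).trans (Nat.pow_le_pow_right T.hM1 (by omega))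
    exact_mod_cast h1
  have bQ1 : |Z.Q s t| ≤ (2 * T.M : ℤ) ^ h :=
    (Z.Q_bound hst.le).trans (pow_le_pow_right₀ (by linarith) (by omega))
  have bQ2 : |Z.Q i s| ≤ (2 * T.M : ℤ) ^ h :=
    (Z.Q_bound his).trans (pow_le_pow_right₀ (by linarith) (by omega))
  have bM : (T.M : ℤ) ^ h ≤ (2 * T.M : ℤ) ^ h := by gcongr; linarith
  have bsub : |A - N| ≤ 2 * (2 * T.M : ℤ) ^ h := by
    refine (abs_sub _ _).trans ?_
    linarith
  have eW : T.W h = 3 * ((2 * T.M : ℤ) ^ h * (2 * T.M : ℤ) ^ h) := by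
    unfold Dt.W; rw [two_mul h, pow_add]
  refine ⟨-((A - N) * Z.Q i s + N' * Z.Q s t), (A - N) * A', mul_ne_zero hAN hA0', ?_, ?_, ?_, ?_⟩
  · rw [abs_neg]
    calc |(A - N) * Z.Q i s + N' * Z.Q s t| ≤ |A - N| * |Z.Q i s| + |N'| * |Z.Q s t| := by
          refine (abs_add_le _ _).trans ?_
          rw [abs_mul, abs_mul]
      _ ≤ (2 * (2 * T.M : ℤ) ^ h) * (2 * T.M : ℤ) ^ h + (2 * T.M : ℤ) ^ h * (2 * T.M : ℤ) ^ h := by
          gcongr
          exact bN'.trans bM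
      _ = T.W h := by rw [eW]; ring
  · rw [abs_mul]
    calc |A - N| * |A'| ≤ (2 * (2 * T.M : ℤ) ^ h) * (2 * T.M : ℤ) ^ h := by
          gcongr
          exact bA'.trans bM
      _ ≤ T.W h := by
          rw [eW]
          have : (0 : ℤ) ≤ (2 * T.M : ℤ) ^ h * (2 * T.M : ℤ) ^ h := by positivity
          linarith
  · rw [hkey]
    exact Dvd.dvd.mul_left (Z.dvd_of_eqv hE (by omega) (by omega)) _
  · rw [hkey]
    exact mul_ne_zero (mul_ne_zero hN0' hN0) hne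

/-- shadows are orbits -/
lemma shadow_step {l h i : ℕ} (hi : i < Z.H) {m e m' e' : ℤ} (hm : |m| ≤ T.W h)
    (he : |e| ≤ T.W h) (hm' : |m'| ≤ T.W h) (he' : |e'| ≤ T.W h)
    (h1 : (T.p : ℤ) ^ l ∣ e * Z.y i - Z.d * m)
    (h2 : (T.p : ℤ) ^ l ∣ e' * Z.y (i + 1) - Z.d * m')
    (hl : 3 * T.M * (T.W h) ^ 2 < (T.p : ℤ) ^ l) :
    (T.p : ℤ) * m' * e = ((T.q : ℤ) ^ T.δ (Z.w i) * m + T.β (Z.w i) * e) * e' := by
  have hMz : (1 : ℤ) ≤ T.M := by exact_mod_cast T.hM1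
  have hWp := T.W_pos h
  have hdvd : (T.p : ℤ) ^ l ∣ (T.p : ℤ) * m' * e
      - ((T.q : ℤ) ^ T.δ (Z.w i) * m + T.β (Z.w i) * e) * e' := by
    have e1 : Z.d * ((T.p : ℤ) * m' * e - ((T.q : ℤ) ^ T.δ (Z.w i) * m + T.β (Z.w i) * e) * e')
        = (e * Z.y i - Z.d * m) * ((T.q : ℤ) ^ T.δ (Z.w i) * e')
          - (e' * Z.y (i + 1) - Z.d * m') * (T.p * e) := by
      linear_combination (e * e') * Z.hrec i hi
    have e2 : (T.p : ℤ) ^ l ∣ Z.d * ((T.p : ℤ) * m' * e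
        - ((T.q : ℤ) ^ T.δ (Z.w i) * m + T.β (Z.w i) * e) * e') := by
      rw [e1]
      exact dvd_sub (Dvd.dvd.mul_right h1 _) (Dvd.dvd.mul_right h2 _)
    exact (Z.hd.symm.pow_left).dvd_of_dvd_mul_left e2
  have hp1 : |(T.p : ℤ)| ≤ T.M := by
    rw [abs_of_nonneg (by positivity)]; exact_mod_cast T.hpM
  have hq1 : |((T.q : ℤ)) ^ T.δ (Z.w i)| ≤ T.M := by
    rw [abs_of_nonneg (by positivity)]
    exact_mod_cast T.hqM _
  have hβ1 := T.hβM (Z.w i)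
  have hbd : |(T.p : ℤ) * m' * e - ((T.q : ℤ) ^ T.δ (Z.w i) * m + T.β (Z.w i) * e) * e'|
      ≤ 3 * T.M * (T.W h) ^ 2 := by
    calc _ ≤ |(T.p : ℤ) * m' * e| + |((T.q : ℤ) ^ T.δ (Z.w i) * m + T.β (Z.w i) * e) * e'| :=
          abs_sub _ _
      _ ≤ T.M * T.W h * T.W h + (T.M * T.W h + T.M * T.W h) * T.W h := by
          apply add_le_add
          · rw [abs_mul, abs_mul]; gcongr
          · rw [abs_mul]
            gcongr
            refine (abs_add_le _ _).trans ?_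
            rw [abs_mul, abs_mul]
            gcongr
      _ = 3 * T.M * (T.W h) ^ 2 := by ring
  by_contra hne
  have h3 := Int.le_of_dvd (abs_pos.2 (sub_ne_zero.2 hne)) ((dvd_abs _ _).2 hdvd)
  linarith

/-- shadows along an interval -/
lemma shadow_run {l h a b : ℕ} (hl : 3 * T.M * (T.W h) ^ 2 < (T.p : ℤ) ^ l)
    (hrep : ∀ i, a ≤ i → i ≤ b → ∃ s t, i ≤ s ∧ s < t ∧ t ≤ i + h ∧ Eqv Z.w l s t) (hab : a ≤ b)
    (hH : b + h + l ≤ Z.H) :
    ∃ m e m' e' : ℤ, e ≠ 0 ∧ e' ≠ 0 ∧ |m| ≤ T.W h ∧ |e| ≤ T.W h ∧ |m'| ≤ T.W h ∧ |e'| ≤ T.W h ∧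
      (T.p : ℤ) ^ (b - a) * m' * e
        = ((T.q : ℤ) ^ (Z.oo b - Z.oo a) * m + Z.Q a b * e) * e' ∧
      (T.p : ℤ) ^ (b - a) ≤ T.W h * (T.W h * (|Z.y a| + |Z.d|)) := by
  classical
  have h1 : ∀ i, ∃ m e : ℤ, a ≤ i → i ≤ b → (e ≠ 0 ∧ |m| ≤ T.W h ∧ |e| ≤ T.W h ∧
      (T.p : ℤ) ^ l ∣ e * Z.y i - Z.d * m ∧ e * Z.y i - Z.d * m ≠ 0) := by
    intro i
    by_cases hi : a ≤ i ∧ i ≤ b
    · obtain ⟨s, t, h1, h2, h3, h4⟩ := hrep i hi.1 hi.2
      obtain ⟨m, e, h5⟩ := Z.shadow h1 h2 h3 h4 (by omega)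
      exact ⟨m, e, fun _ _ => h5⟩
    · exact ⟨0, 0, fun h1 h2 => absurd ⟨h1, h2⟩ hi⟩
  choose m e hmd using h1
  have key : ∀ k, a + k ≤ b → (T.p : ℤ) ^ k * m (a + k) * e a
      = ((T.q : ℤ) ^ (Z.oo (a + k) - Z.oo a) * m a + Z.Q a (a + k) * e a) * e (a + k) := by
    intro k
    induction k with
    | zero => intro _; simp [Q_self]
    | succ k ih =>
      intro hk
      have h2 := ih (by omega)
      obtain ⟨c1, c2, c3, c4, _⟩ := hmd (a + k) (by omega) (by omega)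
      obtain ⟨_, e2, e3, e4, _⟩ := hmd (a + k + 1) (by omega) (by omega)
      have h3 := Z.shadow_step (by omega) c2 c3 e2 e3 c4 e4 hl
      have m1 := Z.oo_mono (Nat.le_add_right a k)
      have h4 := Z.Q_add a k
      have h5 : (T.q : ℤ) ^ (Z.oo (a + k + 1) - Z.oo a)
          = (T.q : ℤ) ^ T.δ (Z.w (a + k)) * (T.q : ℤ) ^ (Z.oo (a + k) - Z.oo a) := by
        rw [← pow_add]; congr 1; rw [oo_succ]; omega
      rw [← add_assoc, h4, h5]
      apply mul_left_cancel₀ c1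
      rw [pow_succ]
      linear_combination ((T.p : ℤ) ^ k * e a) * h3
        + ((T.q : ℤ) ^ T.δ (Z.w (a + k)) * e (a + k + 1)) * h2
  obtain ⟨a1, a2, a3, _, a5⟩ := hmd a le_rfl hab
  obtain ⟨b1, b2, b3, _, _⟩ := hmd b hab le_rfl
  obtain ⟨k, rfl⟩ := Nat.exists_eq_add_of_le hab
  have hk := key k le_rfl
  rw [Nat.add_sub_cancel_left]
  refine ⟨m a, e a, m (a + k), e (a + k), a1, b1, a2, a3, b2, b3, hk, ?_⟩
  have e1 : (T.p : ℤ) ^ k * ((e (a + k) * Z.y (a + k) - Z.d * m (a + k)) * e a)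
      = (T.q : ℤ) ^ (Z.oo (a + k) - Z.oo a) * ((e a * Z.y a - Z.d * m a) * e (a + k)) := by
    have e2 := Z.y_rel (Nat.le_add_right a k) (by omega)
    rw [Nat.add_sub_cancel_left] at e2
    linear_combination (-Z.d) * hk + (e (a + k) * e a) * e2
  have e3 : (T.p : ℤ) ^ k ∣ (e a * Z.y a - Z.d * m a) * e (a + k) :=
    (T.cop k _).dvd_of_dvd_mul_left ⟨_, e1.symm⟩
  have e4 := Int.le_of_dvd (abs_pos.2 (mul_ne_zero a5 b1)) ((dvd_abs _ _).2 e3)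
  refine e4.trans ?_
  have hWp := T.W_pos h
  rw [abs_mul, mul_comm]
  have e5 : |e a * Z.y a - Z.d * m a| ≤ T.W h * (|Z.y a| + |Z.d|) := by
    refine (abs_sub _ _).trans ?_
    rw [abs_mul, abs_mul]
    nlinarith [abs_nonneg (Z.y a), abs_nonneg Z.d]
  gcongr

end FS

end Pool.Agent.TH932.S2.F
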