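import Mathlib
import Pool.Agent.TH932.S2.F.B1

set_option autoImplicit false
set_option linter.unusedSectionVars false

/-!
# Long special positions and macro steps, without a limiting frequency
-/

namespace Pool.Agent.TH932.S2.F

open Filter Topology Pool.Agent.TH932.Abs Pool.Agent.TH932.Germs Pool.Agent.TH932.Chi
open Pool.Agent.TH932.Words Pool.Agent.TH932.Scale

namespace Fam

variable {α : Type*} [Finite α] {T : Dt α} (X : Fam T)

/-- real form of the bound for terms -/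
lemma y_exp' {n : ℕ} (a k : ℕ) (hk : a + k ≤ (X.Z n).H) :
    |((X.Z n).y (a + k) : ℝ)| + |((X.Z n).d : ℝ)| ≤
      Real.exp (Real.log (2 * T.M) * k) * (|((X.Z n).y a : ℝ)| + |((X.Z n).d : ℝ)|) := by
  have hMr : (1 : ℝ) ≤ T.M := by exact_mod_cast T.hM1
  have h1 : (|((X.Z n).y (a + k) : ℝ)| + |((X.Z n).d : ℝ)| : ℝ)
      ≤ (2 * T.M : ℝ) ^ k * (|((X.Z n).y a : ℝ)| + |((X.Z n).d : ℝ)|) := by
    exact_mod_cast (X.Z n).y_bound a k hk
  rw [← Real.rpow_natCast, Real.rpow_def_of_pos (by linarith)] at h1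
  linarith

lemma y_exp {n : ℕ} (k : ℕ) (hk : k ≤ (X.Z n).H) :
    |((X.Z n).y k : ℝ)| + |((X.Z n).d : ℝ)| ≤
      Real.exp (X.B0 * X.L n + Real.log (2 * T.M) * k) := by
  have h1 := X.y_exp' (n := n) 0 k (by omega)
  rw [zero_add] at h1
  have h2 := X.hy n
  rw [Real.exp_add, mul_comm (Real.exp (X.B0 * X.L n))]
  refine h1.trans ?_
  gcongr
  exact h2

/-- stretches without long special positions are short after small terms -/
lemma gap_le {B : ℝ} (hB : 0 ≤ B) : ∀ᶠ n in (UU : Filter ℕ), ∀ a F : ℕ, X.smk n a →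
    |((X.Z n).y a : ℝ)| + |((X.Z n).d : ℝ)| ≤ Real.exp (B * X.L n) → F + X.l n ≤ (X.Z n).H →
    (∀ m, a ≤ m → m < F → ¬ X.lm n m) →
    (F : ℝ) ≤ a + ((B + 1) / Real.log T.p + 1) * X.L n := by
  have hlp := T.logp
  have hlM := T.log2M
  have hMr : (1 : ℝ) ≤ T.M := by exact_mod_cast T.hM1
  set lp := Real.log T.p with hlpd
  set lM := Real.log (2 * T.M) with hlMd
  have hT := (X.hh_near.const_mul X.tL (4 * lM)).add
    (near_const X.tL (Real.log 9))
  filter_upwards [X.hh_near (1 / 2) (by norm_num), hT 1 (by norm_num),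
    ev_of_atTop (X.tL.eventually_ge_atTop 2), X.size_ok] with n h1 h2 h3 hsize a F ha hy hFH hsh
  have h1' := (abs_le.1 h1).2
  have h2' := (abs_le.1 h2).2
  simp only [zero_mul, sub_zero, mul_zero, zero_add] at h1' h2'
  have hL0 : 0 < X.L n := by linarith
  by_cases hcase : a + X.hh n < F
  · have hab : a ≤ F - X.hh n - 1 := by omega
    obtain ⟨_, _, _, _, _, _, _, _, _, _, _, hle⟩ := (X.Z n).shadow_run (a := a) (b := F - X.hh n - 1)
      hsize (fun i hi1 hi2 => X.reps ha hsh hi1 (by omega)) hab (by omega)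
    have hr : ((T.p : ℝ)) ^ (F - X.hh n - 1 - a) ≤ (T.W (X.hh n) : ℝ) *
        ((T.W (X.hh n) : ℝ) * (|((X.Z n).y a : ℝ)| + |((X.Z n).d : ℝ)|)) := by exact_mod_cast hle
    have hW2 : (T.W (X.hh n) : ℝ) = 3 * Real.exp (lM * (2 * X.hh n)) := by
      unfold Dt.W; push_cast
      rw [← Real.rpow_natCast, Real.rpow_def_of_pos (by linarith)]
      push_cast; rfl
    have hp0 : (0 : ℝ) < T.p := by
      have := T.hp
      exact_mod_cast (show 0 < T.p by omega)
    have hlog : (((F - X.hh n - 1 - a : ℕ)) : ℝ) * lp ≤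
        Real.log 9 + lM * (4 * X.hh n) + B * X.L n := by
      have e1 : ((T.p : ℝ)) ^ (F - X.hh n - 1 - a)
          = Real.exp (((F - X.hh n - 1 - a : ℕ) : ℝ) * lp) := by
        rw [← Real.rpow_natCast, Real.rpow_def_of_pos hp0, mul_comm]
      have e2 : (T.W (X.hh n) : ℝ) * ((T.W (X.hh n) : ℝ) * (|((X.Z n).y a : ℝ)| + |((X.Z n).d : ℝ)|)) ≤
          Real.exp (Real.log 9 + lM * (4 * X.hh n) + B * X.L n) := by
        rw [hW2, Real.exp_add, Real.exp_add, Real.exp_log (by norm_num)]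
        calc 3 * Real.exp (lM * (2 * X.hh n)) * (3 * Real.exp (lM * (2 * X.hh n))
              * (|((X.Z n).y a : ℝ)| + |((X.Z n).d : ℝ)|))
            ≤ 3 * Real.exp (lM * (2 * X.hh n)) * (3 * Real.exp (lM * (2 * X.hh n))
              * Real.exp (B * X.L n)) := by gcongr
          _ = 9 * (Real.exp (lM * (2 * X.hh n)) * Real.exp (lM * (2 * X.hh n)))
              * Real.exp (B * X.L n) := by ring
          _ = 9 * Real.exp (lM * (4 * X.hh n)) * Real.exp (B * X.L n) := by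
              rw [← Real.exp_add]; ring_nf
      have e3 := hr.trans e2
      rw [e1] at e3
      exact Real.exp_le_exp.1 e3
    have hcast : (((F - X.hh n - 1 - a : ℕ)) : ℝ) = F - X.hh n - 1 - a := by
      rw [Nat.cast_sub hab, Nat.cast_sub (by omega), Nat.cast_sub (by omega)]
      push_cast; ring
    rw [hcast] at hlog
    have h8 : ((F : ℝ) - X.hh n - 1 - a) * lp ≤ (B + 1) * X.L n := by nlinarith
    have h9 : (F : ℝ) - X.hh n - 1 - a ≤ (B + 1) / lp * X.L n := by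
      rw [div_mul_eq_mul_div, le_div_iff₀ hlp]; exact h8
    nlinarith
  · push Not at hcase
    have h4 : (F : ℝ) ≤ a + X.hh n := by exact_mod_cast hcase
    have h5 : 0 ≤ (B + 1) / lp * X.L n := by positivity
    nlinarith

/-- long special positions exist -/
lemma exists_long {A : ℝ} (hA : 0 ≤ A) : ∃ A1 : ℝ, ∀ᶠ n in (UU : Filter ℕ), ∀ a, X.smk n a →
    (a : ℝ) ≤ A * X.L n → ∃ m, X.lm n m ∧ a ≤ m ∧ (m : ℝ) ≤ A1 * X.L n := by
  have hlp := T.logp
  have hlM := T.log2M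
  have hBB := X.hB0
  set lM := Real.log (2 * T.M) with hlMd
  set B : ℝ := A * lM + X.B0 with hB
  have hB0 : 0 ≤ B := by positivity
  set A1 : ℝ := A + ((B + 1) / Real.log T.p + 2) with hA1
  have hA1p : 0 ≤ A1 := by positivity
  refine ⟨A1, ?_⟩
  filter_upwards [X.gap_le hB0, X.hH (A1 + 2), X.hH A, ev_of_atTop (X.tL.eventually_ge_atTop 1)]
    with n h1 h2 h2' h3 a ha haA
  by_contra hcon
  push Not at hcon
  have hL0 : 0 < X.L n := by linarith
  have haH : a ≤ (X.Z n).H := by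
    have : X.L n = X.l n := rfl
    rw [this] at haA
    exact_mod_cast haA.trans h2'
  have hy : |((X.Z n).y a : ℝ)| + |((X.Z n).d : ℝ)| ≤ Real.exp (B * X.L n) := by
    refine (X.y_exp a haH).trans ?_
    apply Real.exp_le_exp.2
    have : lM * (a : ℝ) ≤ lM * (A * X.L n) := by gcongr
    rw [hB]
    nlinarith
  have hF1 : ((⌊A1 * X.L n⌋₊ : ℕ) : ℝ) ≤ A1 * X.L n := Nat.floor_le (by positivity)
  have hF2 : A1 * X.L n < ⌊A1 * X.L n⌋₊ + 1 := Nat.lt_floor_add_one _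
  have hFH : ⌊A1 * X.L n⌋₊ + 1 + X.l n ≤ (X.Z n).H := by
    have e : X.L n = X.l n := rfl
    have : ((⌊A1 * X.L n⌋₊ + 1 + X.l n : ℕ) : ℝ) ≤ ((X.Z n).H : ℝ) := by
      push_cast
      rw [e] at hF1 h3 ⊢
      linarith
    exact_mod_cast this
  have h4 := h1 a (⌊A1 * X.L n⌋₊ + 1) ha hy hFH (by
    intro m hm1 hm2 hm3
    have h4 := hcon m hm3 hm1
    have h5 : (m : ℝ) ≤ ⌊A1 * X.L n⌋₊ := by exact_mod_cast (by omega : m ≤ ⌊A1 * X.L n⌋₊)
    linarith)
  push_cast at h4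
  nlinarith

/-- the next long special position from `a` -/
noncomputable def Mn (n a : ℕ) : ℕ := by
  classical
  exact if h : ∃ m, X.lm n m ∧ a ≤ m then Nat.find h else a

lemma Mn_spec {n a m0 : ℕ} (h0 : X.lm n m0) (h1 : a ≤ m0) : X.lm n (X.Mn n a) ∧ a ≤ X.Mn n a ∧
    (∀ m, a ≤ m → m < X.Mn n a → ¬ X.lm n m) ∧ X.Mn n a ≤ m0 := by
  classical
  have h : ∃ m, X.lm n m ∧ a ≤ m := ⟨m0, h0, h1⟩
  have e : X.Mn n a = Nat.find h := by unfold Mn; rw [dif_pos h]
  rw [e]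
  refine ⟨(Nat.find_spec h).1, (Nat.find_spec h).2, fun m h2 h3 h4 => ?_, Nat.find_min' h ⟨h0, h1⟩⟩
  exact Nat.find_min h h3 ⟨h4, h2⟩

/-- the positions of the chain -/
noncomputable def pos : ℕ → ℕ → ℕ
  | 0, n => X.nx n 0
  | e + 1, n => X.nx n (X.Mn n (pos e n))

lemma pos_smk (e n : ℕ) : X.smk n (X.pos e n) := by
  cases e with
  | zero => exact (X.nx_spec n 0).2.1
  | succ e => exact (X.nx_spec n _).2.1

lemma nx_le (n i : ℕ) : (X.nx n i : ℝ) ≤ i + (X.C + 1) * X.L n := by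
  obtain ⟨_, _, h3, _⟩ := X.nx_spec n i
  have h4 := X.hcx n
  have h5 : (1 : ℝ) ≤ X.l n := by exact_mod_cast X.hl1 n
  have h6 : (X.nx n i : ℝ) ≤ i + 1 + cx (X.Z n).w (X.l n) := by exact_mod_cast h3
  unfold L
  nlinarith

lemma mstep (e : ℕ) : ∃ A : ℝ, 0 ≤ A ∧ ∀ᶠ n in (UU : Filter ℕ), (X.pos e n : ℝ) ≤ A * X.L n ∧
    X.lm n (X.Mn n (X.pos e n)) ∧ X.pos e n ≤ X.Mn n (X.pos e n) ∧
    (∀ m, X.pos e n ≤ m → m < X.Mn n (X.pos e n) → ¬ X.lm n m) ∧
    X.Mn n (X.pos e n) ≤ X.pos (e + 1) n ∧ (X.pos (e + 1) n : ℝ) ≤ A * X.L n := by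
  have hC := X.hC
  have key : ∀ e : ℕ, ∃ A : ℝ, 0 ≤ A ∧ ∀ᶠ n in (UU : Filter ℕ), (X.pos e n : ℝ) ≤ A * X.L n := by
    intro e
    induction e with
    | zero =>
      refine ⟨X.C + 1, by linarith, Eventually.of_forall fun n => ?_⟩
      have := X.nx_le n 0
      simpa [pos] using this
    | succ e ih =>
      obtain ⟨A, hA, h⟩ := ih
      obtain ⟨A1, h1⟩ := X.exists_long hA
      refine ⟨|A1| + (X.C + 1), by positivity, ?_⟩
      filter_upwards [h, h1, L_nonneg X.tL] with n h2 h3 h4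
      obtain ⟨m, hm1, hm2, hm3⟩ := h3 _ (X.pos_smk e n) h2
      obtain ⟨_, _, _, h5⟩ := X.Mn_spec hm1 hm2
      have h6 := X.nx_le n (X.Mn n (X.pos e n))
      have h7 : (X.Mn n (X.pos e n) : ℝ) ≤ m := by exact_mod_cast h5
      have h8 : A1 * X.L n ≤ |A1| * X.L n := by
        have := le_abs_self A1
        gcongr
      simp only [pos]
      linarith
  obtain ⟨A, hA, h⟩ := key e
  obtain ⟨A1, h1⟩ := X.exists_long hA
  obtain ⟨A', hA', h'⟩ := key (e + 1)
  refine ⟨max A A', le_max_of_le_left hA, ?_⟩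
  filter_upwards [h, h1, L_nonneg X.tL, h'] with n h2 h3 h4 h5
  obtain ⟨m, hm1, hm2, hm3⟩ := h3 _ (X.pos_smk e n) h2
  obtain ⟨g1, g2, g3, _⟩ := X.Mn_spec hm1 hm2
  refine ⟨h2.trans (by gcongr; exact le_max_left _ _), g1, g2, g3, ?_,
    h5.trans (by gcongr; exact le_max_right _ _)⟩
  exact (X.nx_spec n _).1.le

/-- shadows cover the part before a long special position -/
lemma shadow_part {a m : ℕ → ℕ} (ha : ∀ n, X.smk n (a n))
    (ham : ∀ᶠ n in (UU : Filter ℕ), a n ≤ m n) {A : ℝ}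
    (hmA : ∀ᶠ n in (UU : Filter ℕ), (m n : ℝ) ≤ A * X.L n)
    (hsh : ∀ᶠ n in (UU : Filter ℕ), ∀ m', a n ≤ m' → m' < m n → ¬ X.lm n m') :
    ∃ b : ℕ → ℕ, (∀ᶠ n in (UU : Filter ℕ), a n ≤ b n) ∧ (∀ᶠ n in (UU : Filter ℕ), b n ≤ m n) ∧
      near X.L (fun n => (m n : ℝ) - b n) 0 ∧
      ∃ f f' : X.K, X.QA a b = X.NA a b * f' - f := by
  classical
  set b : ℕ → ℕ := fun n => if a n + X.hh n < m n then m n - X.hh n - 1 else a n with hb
  have h1 : ∀ᶠ n in (UU : Filter ℕ), a n ≤ b n := by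
    filter_upwards [ham] with n h
    simp only [hb]
    split_ifs with h2 <;> omega
  have h2 : ∀ᶠ n in (UU : Filter ℕ), b n ≤ m n := by
    filter_upwards [ham] with n h
    simp only [hb]
    split_ifs with h2 <;> omega
  refine ⟨b, h1, h2, ?_, ?_⟩
  · have h3 := X.hh_near.add (near_const X.tL 1)
    rw [zero_add] at h3
    apply near_zero_of_le h3
    filter_upwards [ham] with n h
    have h4 : m n ≤ b n + X.hh n + 1 := by
      simp only [hb]
      split_ifs with h2 <;> omega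
    have h5 : b n ≤ m n := by
      simp only [hb]
      split_ifs with h2 <;> omega
    have h4' : (m n : ℝ) ≤ b n + X.hh n + 1 := by exact_mod_cast h4
    have h5' : (b n : ℝ) ≤ m n := by exact_mod_cast h5
    rw [abs_of_nonneg (by linarith), abs_of_nonneg (by positivity)]
    linarith
  · -- shadows
    have hmH : ∀ᶠ n in (UU : Filter ℕ), m n + X.l n ≤ (X.Z n).H := by
      filter_upwards [hmA, X.hH (A + 1)] with n g1 g2
      have e : X.L n = X.l n := rfl
      have : ((m n + X.l n : ℕ) : ℝ) ≤ ((X.Z n).H : ℝ) := by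
        push_cast
        rw [e] at g1
        linarith
      exact_mod_cast this
    have hex : ∀ n, ∃ v w v' w' : ℤ, (a n ≤ m n ∧ (∀ m', a n ≤ m' → m' < m n → ¬ X.lm n m') ∧
        3 * T.M * (T.W (X.hh n)) ^ 2 < (T.p : ℤ) ^ (X.l n) ∧ m n + X.l n ≤ (X.Z n).H) →
        (w ≠ 0 ∧ w' ≠ 0 ∧ |v| ≤ T.W (X.hh n) ∧ |w| ≤ T.W (X.hh n) ∧
          |v'| ≤ T.W (X.hh n) ∧ |w'| ≤ T.W (X.hh n) ∧
          (T.p : ℤ) ^ (b n - a n) * v' * w
            = ((T.q : ℤ) ^ ((X.Z n).oo (b n) - (X.Z n).oo (a n)) * v + (X.Z n).Q (a n) (b n) * w) * w') := by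
      intro n
      by_cases hg : (a n ≤ m n ∧ (∀ m', a n ≤ m' → m' < m n → ¬ X.lm n m') ∧
        3 * T.M * (T.W (X.hh n)) ^ 2 < (T.p : ℤ) ^ (X.l n) ∧ m n + X.l n ≤ (X.Z n).H)
      · obtain ⟨g1, g2, g3, g4⟩ := hg
        by_cases hcase : a n + X.hh n < m n
        · have hbn : b n = m n - X.hh n - 1 := by simp only [hb]; rw [if_pos hcase]
          obtain ⟨v, w, v', w', k1, k2, k3, k4, k5, k6, k7, _⟩ :=
            (X.Z n).shadow_run (a := a n) (b := b n) g3
            (fun i hi1 hi2 => X.reps (ha n) g2 hi1 (by omega)) (by omega) (by omega)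
          exact ⟨v, w, v', w', fun _ => ⟨k1, k2, k3, k4, k5, k6, k7⟩⟩
        · have hbn : b n = a n := by simp only [hb]; rw [if_neg hcase]
          have hW := T.W_pos (X.hh n)
          refine ⟨0, 1, 0, 1, fun _ => ⟨one_ne_zero, one_ne_zero, ?_, ?_, ?_, ?_, ?_⟩⟩
          · rw [abs_zero]; linarith
          · rw [abs_one]; linarith
          · rw [abs_zero]; linarith
          · rw [abs_one]; linarith
          · rw [hbn, (X.Z n).Q_self]; simp
      · exact ⟨0, 0, 0, 0, fun h => absurd h hg⟩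
    choose v w v' w' hvw using hex
    have hgood : ∀ᶠ n in (UU : Filter ℕ), (w n ≠ 0 ∧ w' n ≠ 0 ∧ |v n| ≤ T.W (X.hh n) ∧
        |w n| ≤ T.W (X.hh n) ∧ |v' n| ≤ T.W (X.hh n) ∧ |w' n| ≤ T.W (X.hh n) ∧
          (T.p : ℤ) ^ (b n - a n) * v' n * w n
            = ((T.q : ℤ) ^ ((X.Z n).oo (b n) - (X.Z n).oo (a n)) * v n + (X.Z n).Q (a n) (b n) * w n)
              * w' n) := by
      filter_upwards [ham, hsh, X.size_ok, hmH] with n g1 g2 g3 g4 using hvw n ⟨g1, g2, g3, g4⟩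
    have hMr : (1 : ℝ) ≤ T.M := by exact_mod_cast T.hM1
    have hneg : ∀ u : ℕ → ℤ, (∀ᶠ n in (UU : Filter ℕ), |u n| ≤ T.W (X.hh n)) →
        Negl X.L u := by
      intro u hu
      have h3 := X.hh_near.const_mul X.tL 2
      rw [mul_zero] at h3
      apply negl_of_le X.tL (M := 2 * T.M) (by linarith) h3 (c := 3) (by norm_num)
      filter_upwards [hu] with n h4
      have h5 : |(u n : ℝ)| ≤ (T.W (X.hh n) : ℝ) := by exact_mod_cast h4
      refine h5.trans (le_of_eq ?_)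
      unfold Dt.W
      push_cast
      rw [← Real.rpow_natCast, Real.rpow_def_of_pos (by linarith)]
      push_cast
      rfl
    have hf : gm (fun n => (v n : ℚ) / w n) ∈ X.K :=
      ⟨v, w, hneg v (hgood.mono fun n h => h.2.2.1), hneg w (hgood.mono fun n h => h.2.2.2.1),
        hgood.mono fun n h => h.1, rfl⟩
    have hf' : gm (fun n => (v' n : ℚ) / w' n) ∈ X.K :=
      ⟨v', w', hneg v' (hgood.mono fun n h => h.2.2.2.2.1),
        hneg w' (hgood.mono fun n h => h.2.2.2.2.2.1), hgood.mono fun n h => h.2.1, rfl⟩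
    refine ⟨⟨_, hf⟩, ⟨_, hf'⟩, ?_⟩
    unfold QA NA
    change _ = gm _ * gm _ - gm _
    rw [gm_mul, gm_sub, gm_eq]
    filter_upwards [hgood] with n hn
    obtain ⟨k1, k2, _, _, _, _, k7⟩ := hn
    have hw0 : (w n : ℚ) ≠ 0 := by exact_mod_cast k1
    have hw0' : (w' n : ℚ) ≠ 0 := by exact_mod_cast k2
    have hq := T.q0
    have k8 : ((T.p : ℚ)) ^ (b n - a n) * v' n * w n
            = ((T.q : ℚ) ^ ((X.Z n).oo (b n) - (X.Z n).oo (a n)) * v n + (X.Z n).Q (a n) (b n) * w n)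
              * w' n := by exact_mod_cast k7
    field_simp
    linear_combination -k8

end Fam

end Pool.Agent.TH932.S2.F
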