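import Mathlib
import Pool.Agent.TH932.S2.F.B3
import Pool.Agent.TH932.Growth
import Pool.Agent.TH932.Asm4

set_option autoImplicit false
set_option linter.unusedSectionVars false

/-!
# Bounded terms, and the contradiction with linear complexity
-/

namespace Pool.Agent.TH932.S2.F

open Filter Topology Pool.Agent.TH932.Abs Pool.Agent.TH932.Germs Pool.Agent.TH932.Chi
open Pool.Agent.TH932.Words Pool.Agent.TH932.Scale

namespace Fam

variable {α : Type*} [Finite α] {T : Dt α} (X : Fam T)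

lemma int_b (b : ℕ) (M : Submonoid ℤ) (y : ℕ → ℤ) :
    gm (fun n => (y n : ℚ)) ∈ SS X.L (Rb b M) 0 := by
  rw [mem_SS]
  intro ε hε
  filter_upwards [L_nonneg X.tL] with n h1
  refine ⟨1, 1, y n, 0, one_ne_zero, ?_, M.one_mem, by simp, ?_⟩
  · rw [Int.cast_one, abs_one]
    exact Real.one_le_exp (by positivity)
  · have : 0 ≤ ε * X.L n := by positivity
    push_cast
    linarith

/-- the size parameter of blocks -/
noncomputable def B1 : ℝ := (X.C + 1) * Real.log (2 * T.M)

lemma B1_pos : 0 < X.B1 := by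
  have := X.hC
  have := T.log2M
  unfold B1; positivity

/-- the size parameter -/
noncomputable def B : ℝ := X.B1 + X.B0

lemma B_pos : 0 < X.B := by
  have := X.B1_pos
  have := X.hB0
  unfold B; positivity

lemma rh_p (s : Fin (X.R + 1)) : X.rh s ∈ SS X.L (Rb T.p (cop T.p)) 0 := by
  unfold rh
  rw [mem_SS]
  intro ε hε
  filter_upwards [L_nonneg X.tL] with n h1
  have hq := T.q0
  refine ⟨1, (T.q : ℤ) ^ (X.os n s), X.Qs n s, 0, one_ne_zero, ?_, ?_, ?_, ?_⟩
  · rw [Int.cast_one, abs_one]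
    exact Real.one_le_exp (by positivity)
  · exact T.hpq.pow_left
  · push_cast
    field_simp
  · have : 0 ≤ ε * X.L n := by positivity
    push_cast
    linarith

lemma os_log (n : ℕ) (s : Fin (X.R + 1)) :
    (X.os n s : ℝ) * Real.log T.q ≤ X.B1 * X.L n := by
  have hMr : (1 : ℝ) ≤ T.M := by exact_mod_cast T.hM1
  have hlM : Real.log T.M ≤ Real.log (2 * T.M) := Real.log_le_log (by linarith) (by linarith)
  have hlM0 := T.log2M
  have h2 := X.os_le n s
  have h3 := X.len_le n s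
  have hq1 : (0 : ℝ) < T.q := by have := T.hq; positivity
  have h4 : (X.os n s : ℝ) * Real.log T.q ≤ X.len n s * Real.log T.M := by
    have := Real.log_le_log (by positivity) h2
    rwa [Real.log_pow, Real.log_pow] at this
  have h5 : (X.len n s : ℝ) * Real.log T.M ≤ (X.C + 1) * X.L n * Real.log (2 * T.M) := by
    have := Real.log_nonneg hMr
    have h6 : 0 ≤ (X.C + 1) * X.L n := le_trans (by positivity) h3
    gcongr
  unfold B1
  linarith

lemma rh_q (M : Submonoid ℤ) (s : Fin (X.R + 1)) : X.rh s ∈ SS X.L (Rb T.q M) (-X.B1) := by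
  unfold rh
  rw [mem_SS]
  intro ε hε
  filter_upwards [L_nonneg X.tL] with n h1
  have hq := T.q0
  refine ⟨1, 1, X.Qs n s, -(X.os n s : ℤ), one_ne_zero, ?_, Submonoid.one_mem _, ?_, ?_⟩
  · rw [Int.cast_one, abs_one]
    exact Real.one_le_exp (by positivity)
  · rw [zpow_neg, zpow_natCast]
    push_cast
    field_simp
  · have h2 := X.os_log n s
    have h6 : 0 ≤ ε * X.L n := by positivity
    push_cast
    linarith

lemma rh_sint (s : Fin (X.R + 1)) : Sint X.L T.p T.q (X.rh s) := by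
  refine ⟨-X.B1, ?_⟩
  unfold rh
  rw [mem_SS]
  intro ε hε
  filter_upwards [L_nonneg X.tL] with n h1
  have hq := T.q0
  have hB := X.B1_pos
  refine ⟨1, X.Qs n s, 0, -(X.os n s : ℤ), one_ne_zero, ?_, ?_, ?_, ?_⟩
  · rw [Int.cast_one, abs_one]
    exact Real.one_le_exp (by positivity)
  · rw [zpow_neg, zpow_natCast, zpow_zero]
    push_cast
    field_simp
  · have h6 : 0 ≤ ε * X.L n := by positivity
    have h7 : 0 ≤ X.B1 * X.L n := by positivity
    push_cast
    linarith
  · have h2 := X.os_log n s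
    have h6 : 0 ≤ ε * X.L n := by positivity
    push_cast
    linarith

lemma rh_i (s : Fin (X.R + 1)) : X.rh s ∈ SS X.L Rinf (-X.B1) := by
  have hMr : (1 : ℝ) ≤ T.M := by exact_mod_cast T.hM1
  have hlM0 := T.log2M
  unfold rh
  rw [mem_SS]
  intro ε hε
  filter_upwards [L_nonneg X.tL] with n h1
  have h2 := X.Qs_le n s
  have h3 := X.len_le n s
  unfold Rinf
  push_cast
  have hq1 : (1 : ℝ) ≤ (T.q : ℝ) ^ (X.os n s) := by
    have := T.hq
    have : (1 : ℝ) ≤ T.q := by exact_mod_cast (by omega : 1 ≤ T.q)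
    exact one_le_pow₀ this
  rw [abs_div, abs_of_nonneg (by linarith : (0 : ℝ) ≤ (T.q : ℝ) ^ (X.os n s))]
  calc |(X.Qs n s : ℝ)| / (T.q : ℝ) ^ (X.os n s) ≤ |(X.Qs n s : ℝ)| := div_le_self (abs_nonneg _) hq1
    _ ≤ (2 * T.M : ℝ) ^ (X.len n s) := h2
    _ = Real.exp (Real.log (2 * T.M) * X.len n s) := by
        rw [← Real.rpow_natCast, Real.rpow_def_of_pos (by linarith)]
    _ ≤ Real.exp (-(-X.B1 - ε) * X.L n) := by
        apply Real.exp_le_exp.2
        have h5 : Real.log (2 * T.M) * (X.len n s : ℝ)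
            ≤ Real.log (2 * T.M) * ((X.C + 1) * X.L n) := by gcongr
        have h6 : 0 ≤ ε * X.L n := by positivity
        unfold B1
        linarith

lemma pos0_le (n : ℕ) : (X.pos 0 n : ℝ) ≤ (X.C + 1) * X.L n := by
  have h3 := X.nx_le n 0
  have : (X.pos 0 n : ℝ) = X.nx n 0 := rfl
  rw [this]
  simpa using h3

lemma gY_i : X.gY (X.pos 0) ∈ SS X.L Rinf (-X.B) := by
  have hlM0 := T.log2M
  unfold gY
  rw [mem_SS]
  intro ε hε
  filter_upwards [L_nonneg X.tL, X.le_H (Eventually.of_forall X.pos0_le)] with n h1 h2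
  have h3 := X.pos0_le n
  have h4 := X.y_exp (X.pos 0 n) h2
  have h5 := abs_nonneg ((X.Z n).d : ℝ)
  unfold Rinf
  push_cast
  refine (by linarith : |((X.Z n).y (X.pos 0 n) : ℝ)|
    ≤ Real.exp (X.B0 * X.L n + Real.log (2 * T.M) * X.pos 0 n)).trans (Real.exp_le_exp.2 ?_)
  have h7 : Real.log (2 * T.M) * (X.pos 0 n : ℝ) ≤ Real.log (2 * T.M) * ((X.C + 1) * X.L n) := by
    gcongr
  have h6 : 0 ≤ ε * X.L n := by positivity
  unfold B B1
  linarith

lemma gd_i : X.gd ∈ SS X.L Rinf (-X.B0) := by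
  unfold gd
  rw [mem_SS]
  intro ε hε
  filter_upwards [L_nonneg X.tL] with n h1
  have h4 := X.hy n
  have h5 := abs_nonneg ((X.Z n).y 0 : ℝ)
  have h6 : 0 ≤ ε * X.L n := by positivity
  unfold Rinf
  push_cast
  refine (by linarith : |((X.Z n).d : ℝ)| ≤ Real.exp (X.B0 * X.l n)).trans (Real.exp_le_exp.2 ?_)
  have : (X.l n : ℝ) = X.L n := rfl
  rw [this]
  linarith

lemma int_sint (y : ℕ → ℤ) : Sint X.L T.p T.q (gm (fun n => (y n : ℚ))) := by
  refine ⟨0, ?_⟩
  rw [mem_SS]
  intro ε hε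
  filter_upwards [L_nonneg X.tL] with n h1
  have : 0 ≤ ε * X.L n := by positivity
  refine ⟨1, y n, 0, 0, one_ne_zero, ?_, by simp, ?_, ?_⟩
  · rw [Int.cast_one, abs_one]
    exact Real.one_le_exp (by positivity)
  · push_cast
    linarith
  · push_cast
    linarith

/-- the generators are bounded at all places -/
lemma zf_mem (v : Pl) (j : Option (Option (Fin (X.R + 1)))) :
    X.zf j ∈ Sv X.L T.p T.q v (-X.B) := by
  have hF := filt_v X.tL T.hp T.hq v
  have hB := X.B_pos
  have hB1 := X.B1_pos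
  have hB0 := X.hB0
  have hBe : X.B = X.B1 + X.B0 := rfl
  match j with
  | none =>
    cases v
    · exact hF.anti (by linarith) (X.int_b _ _ _)
    · exact hF.anti (by linarith) (X.int_b _ _ _)
    · exact hF.anti (by linarith) X.gd_i
  | some none =>
    cases v
    · exact hF.anti (by linarith) (X.int_b _ _ _)
    · exact hF.anti (by linarith) (X.int_b _ _ _)
    · exact X.gY_i
  | some (some s) =>
    cases v
    · exact hF.anti (by linarith) (hF.mul_mem (X.int_b _ _ _) (X.rh_p s))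
    · exact hF.anti (by linarith) (hF.mul_mem (X.int_b _ _ _) (X.rh_q _ s))
    · exact hF.anti (by linarith) (hF.mul_mem X.gd_i (X.rh_i s))

lemma zf_sint (j : Option (Option (Fin (X.R + 1)))) : Sint X.L T.p T.q (X.zf j) := by
  match j with
  | none => exact X.int_sint _
  | some none => exact X.int_sint _
  | some (some s) => exact Sint.mul X.tL T.hp T.hq (X.int_sint _) (X.rh_sint s)

/-- the terms of the chain are bounded -/
lemma chain_bound (hbd : BDStmt) : ∃ B : ℝ, ∀ e, X.gY (X.pos e) ∈ SS X.L Rinf (-B) := by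
  obtain ⟨B, hB⟩ := hbd T.p T.q T.hp T.hq T.hpq X.L X.tL _ inferInstance X.zf X.B T.cM
    X.zf_mem X.zf_sint
  refine ⟨B, fun e => ?_⟩
  obtain ⟨M, h, P, hM, _, _, hP, _, hr⟩ := X.chain e
  exact hB _ h M P (X.int_b _ _ _) hM (fun j g hg => hP j g hg) hr

/-- **All terms up to every multiple of the scale are bounded.** -/
theorem bounded (hbd : BDStmt) : ∃ B : ℝ, 0 < B ∧ ∀ A : ℝ, ∀ᶠ n in (UU : Filter ℕ), ∀ k : ℕ,
    (k : ℝ) ≤ A * X.L n → |((X.Z n).y k : ℝ)| ≤ Real.exp (B * X.L n) := by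
  obtain ⟨B0, hB0⟩ := X.chain_bound hbd
  have hlM := T.log2M
  have hlp := T.logp
  have hC := X.hC
  have hXB := X.hB0
  set B1 : ℝ := |B0| + 2 + X.B0 with hB1
  have hB1p : 0 ≤ B1 := by positivity
  set G : ℝ := (B1 + 1) / Real.log T.p + 1 + (X.C + 1) with hG
  have hGp : 0 ≤ G := by positivity
  set B : ℝ := Real.log (2 * T.M) * G + B1 + (1 + Real.log (2 * T.M) * (X.C + 1)) with hBd
  have hBp : 0 < B := by positivity
  refine ⟨B, hBp, fun A => ?_⟩
  obtain ⟨E, hE⟩ := exists_nat_gt ((|A| + 1) / X.cmin)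
  rw [div_lt_iff₀ X.cmin_pos] at hE
  -- the terms of the chain
  have hch : ∀ᶠ n in (UU : Filter ℕ), ∀ e ∈ Finset.range (E + 1),
      |((X.Z n).y (X.pos e n) : ℝ)| + |((X.Z n).d : ℝ)| ≤ Real.exp (B1 * X.L n) := by
    rw [Finset.eventually_all]
    intro e _
    have h1 := hB0 e
    unfold gY at h1
    rw [mem_SS] at h1
    filter_upwards [h1 1 one_pos, ev_of_atTop (X.tL.eventually_ge_atTop 1)] with n h2 h3
    unfold Rinf at h2
    push_cast at h2
    have hL0 : 0 ≤ X.L n := by linarith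
    have h4 : Real.exp (-(-B0 - 1) * X.L n) ≤ Real.exp ((B1 - 1) * X.L n) := by
      apply Real.exp_le_exp.2
      have := le_abs_self B0
      rw [hB1]
      nlinarith
    have h5 : |((X.Z n).d : ℝ)| ≤ Real.exp ((B1 - 1) * X.L n) := by
      have h6 := X.hy n
      have h7 := abs_nonneg ((X.Z n).y 0 : ℝ)
      refine (by linarith : |((X.Z n).d : ℝ)| ≤ Real.exp (X.B0 * X.l n)).trans
        (Real.exp_le_exp.2 ?_)
      have e : (X.l n : ℝ) = X.L n := rfl
      rw [e, hB1]
      have := abs_nonneg B0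
      nlinarith
    have h6 : Real.exp (B1 * X.L n) = Real.exp ((B1 - 1) * X.L n) * Real.exp (X.L n) := by
      rw [← Real.exp_add]; ring_nf
    have h7 : (2 : ℝ) ≤ Real.exp (X.L n) := by
      have := Real.add_one_le_exp (X.L n)
      linarith
    have h8 := Real.exp_pos ((B1 - 1) * X.L n)
    rw [h6]
    nlinarith
  have hms : ∀ᶠ n in (UU : Filter ℕ), ∀ e ∈ Finset.range (E + 1), X.lm n (X.Mn n (X.pos e n)) ∧
      X.pos e n ≤ X.Mn n (X.pos e n) ∧
      (∀ m, X.pos e n ≤ m → m < X.Mn n (X.pos e n) → ¬ X.lm n m) ∧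
      X.Mn n (X.pos e n) + X.l n ≤ (X.Z n).H := by
    rw [Finset.eventually_all]
    intro e _
    obtain ⟨A', _, h⟩ := X.mstep e
    filter_upwards [h, X.hH (A' + 1)] with n hn h2
    refine ⟨hn.2.1, hn.2.2.1, hn.2.2.2.1, ?_⟩
    have h3 : (X.Mn n (X.pos e n) : ℝ) ≤ X.pos (e + 1) n := by exact_mod_cast hn.2.2.2.2.1
    have h4 := hn.2.2.2.2.2
    have e1 : X.L n = X.l n := rfl
    have h5 : ((X.Mn n (X.pos e n) + X.l n : ℕ) : ℝ) ≤ ((X.Z n).H : ℝ) := by
      push_cast
      rw [e1] at h4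
      linarith
    exact_mod_cast h5
  obtain ⟨_, hh, _, _, _, hhE, _, hhn, _⟩ := X.chain E
  filter_upwards [hch, hms, X.gap_le hB1p, hhn 1 one_pos,
    ev_of_atTop (X.tL.eventually_ge_atTop 1), X.hH A] with n h1 h2 h3 h4 h5 h6 k hk
  have hL0 : 0 < X.L n := by linarith
  have hkH : k ≤ (X.Z n).H := by
    have e1 : X.L n = X.l n := rfl
    rw [e1] at hk
    exact_mod_cast hk.trans h6
  have hdn := abs_nonneg ((X.Z n).d : ℝ)
  by_cases hk0 : k < X.pos 0 n
  · -- before the chain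
    have h7 := X.y_exp k hkH
    have h8 := X.pos0_le n
    have h9 : (k : ℝ) ≤ (X.C + 1) * X.L n := by
      have e2 : (k : ℝ) ≤ X.pos 0 n := by exact_mod_cast hk0.le
      linarith
    refine (by linarith : |((X.Z n).y k : ℝ)|
      ≤ Real.exp (X.B0 * X.L n + Real.log (2 * T.M) * k)).trans (Real.exp_le_exp.2 ?_)
    have h11 : Real.log (2 * T.M) * (k : ℝ) ≤ Real.log (2 * T.M) * ((X.C + 1) * X.L n) := by
      gcongr
    have h12 : 0 ≤ (Real.log (2 * T.M) * G + 1) * X.L n := by positivity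
    have h13 : 0 ≤ (|B0| + 2) * X.L n := by positivity
    rw [hBd, hB1]
    nlinarith
  · push Not at hk0
    -- the last term of the chain before `k`
    have hkE : k < X.pos E n := by
      have h7 := (abs_le.1 h4).1
      have h8 : (0 : ℝ) ≤ X.pos 0 n := by positivity
      have h9 : A * X.L n ≤ |A| * X.L n := by
        have := le_abs_self A
        gcongr
      have h10 : (k : ℝ) < X.pos E n := by nlinarith
      exact_mod_cast h10
    obtain ⟨e, he1, he2, he3⟩ : ∃ e, e < E ∧ X.pos e n ≤ k ∧ k < X.pos (e + 1) n := by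
      classical
      have hex : ∃ e, k < X.pos e n := ⟨E, hkE⟩
      have h7 := Nat.find_spec hex
      have h8 : Nat.find hex ≠ 0 := by
        intro h9
        rw [h9] at h7
        omega
      obtain ⟨e, he⟩ := Nat.exists_eq_succ_of_ne_zero h8
      have h9 : ¬ k < X.pos e n := Nat.find_min hex (by omega)
      have h10 : Nat.find hex ≤ E := Nat.find_min' hex hkE
      refine ⟨e, by omega, by omega, ?_⟩
      rw [he] at h7
      exact h7
    have heE : e ∈ Finset.range (E + 1) := Finset.mem_range.2 (by omega)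
    obtain ⟨g1, g2, g3, g3'⟩ := h2 e heE
    have g4 := h1 e heE
    have g5 := h3 (X.pos e n) (X.Mn n (X.pos e n)) (X.pos_smk e n) g4 g3' g3
    have g6 := X.nx_le n (X.Mn n (X.pos e n))
    have g7 : (X.pos (e + 1) n : ℝ) ≤ X.pos e n + G * X.L n := by
      have e1 : (X.pos (e + 1) n : ℝ) = X.nx n (X.Mn n (X.pos e n)) := rfl
      rw [e1, hG]
      linarith
    -- the growth from there
    have g8 : |((X.Z n).y k : ℝ)| + |((X.Z n).d : ℝ)|
        ≤ Real.exp (Real.log (2 * T.M) * ((k : ℝ) - X.pos e n))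
        * (|((X.Z n).y (X.pos e n) : ℝ)| + |((X.Z n).d : ℝ)|) := by
      obtain ⟨d, hd⟩ := Nat.exists_eq_add_of_le he2
      have h8 := X.y_exp' (n := n) (X.pos e n) d (by omega)
      rw [← hd] at h8
      have h9 : (d : ℝ) = (k : ℝ) - X.pos e n := by
        have : (k : ℝ) = X.pos e n + d := by exact_mod_cast hd
        linarith
      rw [h9] at h8
      exact h8
    have g9 : Real.log (2 * T.M) * ((k : ℝ) - X.pos e n) ≤ Real.log (2 * T.M) * (G * X.L n) := by
      have : (k : ℝ) ≤ X.pos (e + 1) n := by exact_mod_cast he3.le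
      gcongr; linarith
    have g10 : |((X.Z n).y k : ℝ)| ≤ Real.exp (Real.log (2 * T.M) * (G * X.L n))
        * Real.exp (B1 * X.L n) := by
      calc |((X.Z n).y k : ℝ)| ≤ |((X.Z n).y k : ℝ)| + |((X.Z n).d : ℝ)| := by linarith
        _ ≤ Real.exp (Real.log (2 * T.M) * ((k : ℝ) - X.pos e n))
            * (|((X.Z n).y (X.pos e n) : ℝ)| + |((X.Z n).d : ℝ)|) := g8
        _ ≤ _ := by gcongr
    refine g10.trans ?_
    rw [← Real.exp_add]
    apply Real.exp_le_exp.2
    rw [hBd]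
    have h12 : 0 ≤ (1 + Real.log (2 * T.M) * (X.C + 1)) * X.L n := by positivity
    nlinarith

/-- linear complexity at the multiples of the scale is impossible -/
theorem absurd_of (hbd : BDStmt) {C2 : ℝ}
    (hC2 : ∀ c : ℕ, 1 ≤ c → ∀ᶠ n in (UU : Filter ℕ),
      (cx (X.Z n).w (c * X.l n) : ℝ) ≤ C2 * (c * X.L n)) : False := by
  obtain ⟨B, hB, hb⟩ := X.bounded hbd
  have hlp := T.logp
  -- the multiple
  obtain ⟨c, hc⟩ := exists_nat_gt ((B + 1) / Real.log T.p)
  rw [div_lt_iff₀ hlp] at hc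
  have hc0 : 0 < c := by
    by_contra h
    have : c = 0 := by omega
    rw [this] at hc
    push_cast at hc
    linarith
  have hc0' : (0 : ℝ) < c := by exact_mod_cast hc0
  obtain ⟨n, h1, h2, h3, hH⟩ := ((hb (|C2| * c)).and
    ((ev_of_atTop (X.tL.eventually_ge_atTop 1)).and ((hC2 c hc0).and
      (X.hH (|C2| * c + c))))).exists
  have hln : (X.l n : ℝ) = X.L n := rfl
  obtain ⟨a, b, _, hab, hbl, hE⟩ := exists_rep (X.Z n).w (c * X.l n) 0
  rw [zero_add] at hbl
  have hL0 : 0 < X.L n := by linarith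
  have h4 : (b : ℝ) ≤ |C2| * c * X.L n := by
    have h5 : (b : ℝ) ≤ cx (X.Z n).w (c * X.l n) := by exact_mod_cast hbl
    have h6 : C2 * (c * X.L n) ≤ |C2| * (c * X.L n) := by
      have := le_abs_self C2
      gcongr
    linarith
  have h5 : (a : ℝ) ≤ |C2| * c * X.L n := by
    have : (a : ℝ) ≤ b := by exact_mod_cast hab.le
    linarith
  have h6 := h1 a h5
  have h7 := h1 b h4
  have hbH : b + c * X.l n ≤ (X.Z n).H := by
    have : ((b + c * X.l n : ℕ) : ℝ) ≤ ((X.Z n).H : ℝ) := by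
      push_cast
      rw [hln] at hH ⊢
      linarith
    exact_mod_cast this
  have h8 := (X.Z n).dvd_of_eqv hE (by omega) hbH
  have h9 : (X.Z n).y b - (X.Z n).y a ≠ 0 := by
    rw [sub_ne_zero]
    exact ((X.Z n).hinj a b hab (by omega)).symm
  have h10 := Int.le_of_dvd (abs_pos.2 h9) ((dvd_abs _ _).2 h8)
  have h11 : ((T.p : ℝ)) ^ (c * X.l n) ≤ |((X.Z n).y b : ℝ) - (X.Z n).y a| := by
    exact_mod_cast h10
  have h12 : |((X.Z n).y b : ℝ) - (X.Z n).y a| ≤ 2 * Real.exp (B * X.L n) := by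
    refine (abs_sub _ _).trans ?_
    linarith
  have h13 : ((T.p : ℝ)) ^ (c * X.l n) = Real.exp (Real.log T.p * (c * X.L n)) := by
    have hp0 : (0 : ℝ) < T.p := by
      have := T.hp
      exact_mod_cast (show 0 < T.p by omega)
    rw [← Real.rpow_natCast, Real.rpow_def_of_pos hp0]
    push_cast
    rw [hln]
  have h14 : 2 * Real.exp (B * X.L n) < Real.exp ((B + 1) * X.L n) := by
    rw [add_mul, Real.exp_add]
    have h16 : (2 : ℝ) < Real.exp (1 * X.L n) := by
      have h17 : Real.exp 1 ≤ Real.exp (1 * X.L n) := Real.exp_le_exp.2 (by linarith)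
      have h18 := Real.exp_one_gt_d9
      linarith
    have := Real.exp_pos (B * X.L n)
    nlinarith
  have h15 : Real.exp (Real.log T.p * (c * X.L n)) < Real.exp ((B + 1) * X.L n) := by
    rw [← h13]; linarith
  have h16 := Real.exp_lt_exp.1 h15
  nlinarith

end Fam

end Pool.Agent.TH932.S2.F
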