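import Mathlib
import Pool.Agent.TH932.S2.F.B4
import Pool.Agent.TH932.S2.Rc3

set_option autoImplicit false

/-!
# Windows, and the finitary theorem
-/

namespace Pool.Agent.TH932.S2.F

open Filter Topology Pool.Agent.TH932.Abs Pool.Agent.TH932.Germs Pool.Agent.TH932.Chi
open Pool.Agent.TH932.Words Pool.Agent.TH932.Scale

variable {α : Type*}

/-- the number of factors of length `m` inside the first `H` letters -/
noncomputable def wc (w : ℕ → α) (H m : ℕ) : ℕ := ((fun i => fac w m i) '' {i | i + m ≤ H}).ncard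

lemma wc_mono [Finite α] (w : ℕ → α) {H H' : ℕ} (h : H ≤ H') (m : ℕ) : wc w H m ≤ wc w H' m := by
  unfold wc
  apply Set.ncard_le_ncard _ (Set.toFinite _)
  rintro _ ⟨i, hi, rfl⟩
  exact ⟨i, le_trans hi h, rfl⟩

lemma wc_le_cx [Finite α] (w : ℕ → α) (H m : ℕ) : wc w H m ≤ cx w m := by
  unfold wc cx
  exact Set.ncard_le_ncard (Set.image_subset_range _ _) (Set.toFinite _)

/-! ## an aperiodic word of low complexity -/

open Classical in
/-- the indicator of the powers of two -/
noncomputable def pw (k : ℕ) : Bool := decide (∃ j, k = 2 ^ j)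

lemma pw_true {k : ℕ} : pw k = true ↔ ∃ j, k = 2 ^ j := by unfold pw; simp

lemma pw_false {k : ℕ} : pw k = false ↔ ¬ ∃ j, k = 2 ^ j := by unfold pw; simp

lemma pow_close {a b i m : ℕ} (him : m ≤ i) (ha : i ≤ 2 ^ a) (ha' : 2 ^ a < i + m)
    (hb : i ≤ 2 ^ b) (hb' : 2 ^ b < i + m) : a = b := by
  by_contra hne
  have key : ∀ a b : ℕ, a < b → i ≤ 2 ^ a → 2 ^ b < i + m → False := by
    intro a b hab h1 h2
    have h3 : 2 * 2 ^ a ≤ 2 ^ b := by
      rw [← pow_succ']
      exact Nat.pow_le_pow_right (by norm_num) hab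
    omega
  rcases lt_or_gt_of_ne hne with h | h
  · exact key a b h ha hb'
  · exact key b a h hb ha'

lemma cx_pw (m : ℕ) : cx pw m ≤ 2 * m + 1 := by
  classical
  have hsub : Set.range (fac pw m) ⊆ (fac pw m '' {i | i < m}) ∪
      Set.range (fun t : Fin (m + 1) => fun k : Fin m => decide (k.1 = t.1)) := by
    rintro _ ⟨i, rfl⟩
    by_cases hi : i < m
    · left; exact ⟨i, hi, rfl⟩
    · right
      push Not at hi
      by_cases hk : ∃ k : Fin m, pw (i + k) = true
      · obtain ⟨k, hk⟩ := hk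
        refine ⟨⟨k.1, by omega⟩, ?_⟩
        funext k'
        obtain ⟨a, ha⟩ := pw_true.1 hk
        simp only [fac]
        by_cases h1 : k'.1 = k.1
        · rw [h1, hk]; simp
        · have h2 : pw (i + k') = false := by
            rw [pw_false]
            rintro ⟨b, hb⟩
            apply h1
            have := pow_close (a := a) (b := b) hi (by omega) (by omega) (by omega) (by omega)
            rw [this] at ha
            omega
          rw [h2]; simp [h1]
      · push Not at hk
        refine ⟨⟨m, by omega⟩, ?_⟩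
        funext k'
        have h1 := hk k'
        simp only [fac]
        have h2 : pw (i + k') = false := by simpa using h1
        rw [h2]
        have : k'.1 ≠ m := by omega
        simp [this]
  have h1 : (fac pw m '' {i | i < m}).ncard ≤ m := by
    refine (Set.ncard_image_le (Set.finite_lt_nat m)).trans ?_
    have : {i | i < m} = (Finset.range m : Set ℕ) := by ext; simp
    rw [this, Set.ncard_coe_finset, Finset.card_range]
  have h2 : (Set.range (fun t : Fin (m + 1) => fun k : Fin m => decide (k.1 = t.1))).ncard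
      ≤ m + 1 := by
    rw [← Set.image_univ]
    refine (Set.ncard_image_le Set.finite_univ).trans ?_
    rw [Set.ncard_univ, Nat.card_eq_fintype_card, Fintype.card_fin]
  unfold cx
  refine (Set.ncard_le_ncard hsub (Set.toFinite _)).trans ?_
  refine (Set.ncard_union_le _ _).trans ?_
  omega

/-- the first `H` letters of `w`, followed by the indicator of the powers of two -/
noncomputable def ext (w : ℕ → α) (H k : ℕ) : α ⊕ Bool :=
  if k < H then Sum.inl (w k) else Sum.inr (pw (k - H))

lemma ext_lt {w : ℕ → α} {H k : ℕ} (h : k < H) : ext w H k = Sum.inl (w k) := if_pos h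
lemma ext_ge {w : ℕ → α} {H k : ℕ} (h : H ≤ k) : ext w H k = Sum.inr (pw (k - H)) :=
  if_neg (by omega)

lemma ext_aper (w : ℕ → α) (H a b : ℕ) (hab : a < b) :
    ∃ k, ext w H (a + k) ≠ ext w H (b + k) := by
  obtain ⟨j, hj⟩ : ∃ j : ℕ, a + b + H < 2 ^ j := ⟨a + b + H, Nat.lt_two_pow_self⟩
  refine ⟨H + 2 ^ j - a, ?_⟩
  rw [ext_ge (by omega), ext_ge (by omega), show a + (H + 2 ^ j - a) - H = 2 ^ j by omega,
    show b + (H + 2 ^ j - a) - H = 2 ^ j + (b - a) by omega, pw_true.2 ⟨j, rfl⟩]
  intro h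
  have h1 := Sum.inr_injective h
  obtain ⟨i, hi⟩ := pw_true.1 h1.symm
  have h2 : j < i := by
    by_contra h3
    push Not at h3
    have := Nat.pow_le_pow_right (show 0 < 2 by norm_num) h3
    omega
  have h3 : 2 * 2 ^ j ≤ 2 ^ i := by
    rw [← pow_succ']
    exact Nat.pow_le_pow_right (by norm_num) h2
  omega

lemma cx_ext [Finite α] (w : ℕ → α) (H m : ℕ) : cx (ext w H) m ≤ wc w H m + (3 * m + 1) := by
  classical
  have hsub : Set.range (fac (ext w H) m) ⊆
      ((fun u : Fin m → α => fun k => (Sum.inl (u k) : α ⊕ Bool)) ''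
        ((fun i => fac w m i) '' {i | i + m ≤ H})) ∪
      ((fac (ext w H) m '' (Finset.Ico (H + 1 - m) H : Set ℕ)) ∪
      ((fun u : Fin m → Bool => fun k => (Sum.inr (u k) : α ⊕ Bool)) '' Set.range (fac pw m))) := by
    rintro _ ⟨i, rfl⟩
    by_cases h1 : i + m ≤ H
    · left
      refine ⟨fac w m i, ⟨i, h1, rfl⟩, ?_⟩
      funext k
      simp only [fac]
      rw [ext_lt (by omega)]
    · right
      by_cases h2 : i < H
      · left
        refine ⟨i, ?_, rfl⟩
        simp only [Finset.coe_Ico, Set.mem_Ico]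
        omega
      · right
        refine ⟨fac pw m (i - H), ⟨i - H, rfl⟩, ?_⟩
        funext k
        simp only [fac]
        rw [ext_ge (by omega)]
        congr 2
        omega
  have h1 : ((fun u : Fin m → α => fun k => (Sum.inl (u k) : α ⊕ Bool)) ''
        ((fun i => fac w m i) '' {i | i + m ≤ H})).ncard ≤ wc w H m :=
    Set.ncard_image_le (Set.toFinite _)
  have h2 : (fac (ext w H) m '' (Finset.Ico (H + 1 - m) H : Set ℕ)).ncard ≤ m := by
    refine (Set.ncard_image_le (Finset.finite_toSet _)).trans ?_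
    rw [Set.ncard_coe_finset, Nat.card_Ico]
    omega
  have h3 : ((fun u : Fin m → Bool => fun k => (Sum.inr (u k) : α ⊕ Bool)) ''
      Set.range (fac pw m)).ncard ≤ 2 * m + 1 :=
    (Set.ncard_image_le (Set.toFinite _)).trans (cx_pw m)
  unfold cx
  refine (Set.ncard_le_ncard hsub (Set.toFinite _)).trans ?_
  refine (Set.ncard_union_le _ _).trans ?_
  have h4 := Set.ncard_union_le (fac (ext w H) m '' (Finset.Ico (H + 1 - m) H : Set ℕ))
    ((fun u : Fin m → Bool => fun k => (Sum.inr (u k) : α ⊕ Bool)) '' Set.range (fac pw m))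
  omega

/-! ## the finitary theorem -/

/-- the affine maps with additional letters -/
def Dt.ex (T : Dt α) : Dt (α ⊕ Bool) where
  p := T.p
  q := T.q
  M := T.M
  δ := Sum.elim T.δ fun _ => 0
  β := Sum.elim T.β fun _ => 0
  hp := T.hp
  hq := T.hq
  hpq := T.hpq
  hpM := T.hpM
  hqM := fun a => by
    cases a with
    | inl a => exact T.hqM a
    | inr a => simpa using T.hM1
  hβM := fun a => by
    cases a with
    | inl a => exact T.hβM a
    | inr a => simp

/-- segments as extended segments -/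
noncomputable def mkFS (T : Dt α) {w : ℕ → α} {y : ℕ → ℤ} {d : ℤ} {H : ℕ}
    (hd : IsCoprime d (T.p : ℤ))
    (hrec : ∀ k < H, (T.p : ℤ) * y (k + 1) = (T.q : ℤ) ^ T.δ (w k) * y k + d * T.β (w k))
    (hinj : ∀ i j, i < j → j ≤ H → y i ≠ y j) : FS T.ex where
  w := ext w H
  y := y
  d := d
  H := H
  hd := hd
  hrec := fun k hk => by
    rw [ext_lt hk]
    exact hrec k hk
  hinj := hinj
  hap := ext_aper w H

/-- the finitary theorem at large scales -/
lemma finitary_large (hbd : BDStmt) [Finite α] (T : Dt α) (C B0 : ℝ) : ∃ K : ℕ, ∀ N : ℕ, K ≤ N →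
    ∀ (w : ℕ → α) (y : ℕ → ℤ) (d : ℤ), IsCoprime d (T.p : ℤ) →
    (∀ k < K * N, (T.p : ℤ) * y (k + 1) = (T.q : ℤ) ^ T.δ (w k) * y k + d * T.β (w k)) →
    |(y 0 : ℝ)| ≤ Real.exp (B0 * N) → |(d : ℝ)| ≤ Real.exp (B0 * N) →
    (∀ m, N ≤ m → m ≤ K * N → (wc w (K * N) m : ℝ) ≤ C * m) →
    ∃ i j, i < j ∧ j ≤ K * N ∧ y i = y j := by
  by_contra hcon
  push Not at hcon
  choose N hN w y d hd hrec hy hdd hcx hne using fun n : ℕ => hcon (n + 2)
  -- the constant of the complexity of the extended words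
  set C1 : ℝ := |C| + 4 with hC1
  have hC1p : 0 ≤ C1 := by positivity
  have hcx1 : ∀ n m, N n ≤ m → m ≤ (n + 2) * N n →
      (cx (ext (w n) ((n + 2) * N n)) m : ℝ) ≤ C1 * m := by
    intro n m h1 h2
    have h3 := cx_ext (w n) ((n + 2) * N n) m
    have h4 := hcx n m h1 h2
    have h5 : (cx (ext (w n) ((n + 2) * N n)) m : ℝ) ≤ wc (w n) ((n + 2) * N n) m + (3 * m + 1) := by
      exact_mod_cast h3
    have h6 : (1 : ℝ) ≤ m := by
      have := hN n
      exact_mod_cast (by omega : 1 ≤ m)
    have h7 : C * m ≤ |C| * m := by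
      have := le_abs_self C
      gcongr
    rw [hC1]
    linarith
  have hsc : ∀ n, ∃ l, N n ≤ 2 * l ∧ l ≤ N n ∧
      (cx (ext (w n) ((n + 2) * N n)) l : ℝ) ≤ 2 * C1 * l ∧
      (cx (ext (w n) ((n + 2) * N n)) (l + 1) : ℝ) ≤ 3 * C1
        + cx (ext (w n) ((n + 2) * N n)) l := by
    intro n
    apply exists_scale2 _ hC1p (by have := hN n; omega)
    exact hcx1 n (N n) le_rfl (by nlinarith)
  choose l hl1 hl2 hl3 hl4 using hsc
  have hNt : Tendsto N atTop atTop :=
    tendsto_atTop_mono (fun n => (by have := hN n; omega : n ≤ N n)) tendsto_id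
  have hlt : Tendsto l atTop atTop := by
    refine tendsto_atTop_mono (f := fun n => n / 2) (fun n => ?_) ?_
    · have := hl1 n
      have := hN n
      omega
    · exact Nat.tendsto_div_const_atTop (by norm_num)
  let X : Fam T.ex :=
    { Z := fun n => mkFS T (w := w n) (y := y n) (d := d n) (H := (n + 2) * N n) (hd n) (hrec n)
        (fun i j h1 h2 => hne n i j h1 h2)
      l := l
      R := ⌈6 * C1⌉₊
      C := 2 * C1
      B0 := 2 * (|B0| + 1)
      hl := hlt
      hl1 := fun n => by have := hl1 n; have := hN n; omega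
      hcx := hl3
      hR := fun n => by
        have h1 := hl4 n
        have h2 : 6 * C1 ≤ (⌈6 * C1⌉₊ : ℝ) := Nat.le_ceil _
        have h3 : ((2 * cx (ext (w n) ((n + 2) * N n)) (l n + 1) : ℕ) : ℝ)
            ≤ ((⌈6 * C1⌉₊ + 2 * cx (ext (w n) ((n + 2) * N n)) (l n) : ℕ) : ℝ) := by
          push_cast
          linarith
        exact_mod_cast h3
      hB0 := by positivity
      hy := fun n => by
        have h1 := hy n
        have h2 := hdd n
        have h3 : (N n : ℝ) ≤ 2 * l n := by exact_mod_cast hl1 n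
        have h4 : (2 : ℝ) ≤ N n := by
          have := hN n
          exact_mod_cast (by omega : 2 ≤ N n)
        have h5 : Real.exp (B0 * N n) ≤ Real.exp (|B0| * N n) := by
          apply Real.exp_le_exp.2
          have := le_abs_self B0
          gcongr
        have h6 : (2 : ℝ) ≤ Real.exp (N n) := by
          have := Real.add_one_le_exp ((N n : ℕ) : ℝ)
          linarith
        have h7 := Real.exp_pos (|B0| * N n)
        calc |((y n 0 : ℤ) : ℝ)| + |((d n : ℤ) : ℝ)| ≤ 2 * Real.exp (|B0| * N n) := by linarith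
          _ ≤ Real.exp (N n) * Real.exp (|B0| * N n) := by gcongr
          _ = Real.exp ((|B0| + 1) * N n) := by rw [← Real.exp_add]; ring_nf
          _ ≤ Real.exp (2 * (|B0| + 1) * l n) := by
              apply Real.exp_le_exp.2
              have : 0 ≤ |B0| := abs_nonneg _
              nlinarith
      hH := fun A => by
        obtain ⟨n0, hn0⟩ := exists_nat_ge A
        filter_upwards [ev_of_atTop (eventually_ge_atTop n0)] with n hn
        have h1 : A ≤ n := hn0.trans (by exact_mod_cast hn)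
        have h2 : (l n : ℝ) ≤ N n := by exact_mod_cast hl2 n
        change A * (l n : ℝ) ≤ (((n + 2) * N n : ℕ) : ℝ)
        push_cast
        have h3 : (0 : ℝ) ≤ l n := by positivity
        have h4 : (0 : ℝ) ≤ n := by positivity
        calc A * (l n : ℝ) ≤ n * l n := by gcongr
          _ ≤ (n + 2) * N n := by gcongr; linarith }
  apply X.absurd_of hbd (C2 := 2 * C1)
  intro c hc
  filter_upwards [ev_of_atTop (eventually_ge_atTop c)] with n hn
  change (cx (ext (w n) ((n + 2) * N n)) (c * l n) : ℝ) ≤ 2 * C1 * (c * (l n : ℝ))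
  rcases Nat.lt_or_ge c 2 with h1 | h1
  · have : c = 1 := by omega
    rw [this, one_mul, Nat.cast_one, one_mul]
    exact hl3 n
  · have h2 := hl1 n
    have h3 := hl2 n
    have h4 : N n ≤ c * l n := h2.trans (by nlinarith)
    have h5 : c * l n ≤ (n + 2) * N n := Nat.mul_le_mul (by omega) h3
    have h6 := hcx1 n _ h4 h5
    push_cast at h6
    have h7 : 0 ≤ C1 * (c * (l n : ℝ)) := by positivity
    linarith

/-- **The finitary theorem.** -/
theorem finitary (hbd : BDStmt) [Finite α] (T : Dt α) (C B0 : ℝ) : ∃ K : ℕ, 1 ≤ K ∧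
    ∀ N : ℕ, 1 ≤ N →
    ∀ (w : ℕ → α) (y : ℕ → ℤ) (d : ℤ), IsCoprime d (T.p : ℤ) →
    (∀ k < K * N, (T.p : ℤ) * y (k + 1) = (T.q : ℤ) ^ T.δ (w k) * y k + d * T.β (w k)) →
    |(y 0 : ℝ)| ≤ Real.exp (B0 * N) → |(d : ℝ)| ≤ Real.exp (B0 * N) →
    (∀ m, N ≤ m → m ≤ K * N → (wc w (K * N) m : ℝ) ≤ C * m) →
    ∃ i j, i < j ∧ j ≤ K * N ∧ y i = y j := by
  obtain ⟨K0, h0⟩ := finitary_large hbd T C |B0|
  set K := K0 + 1 with hK
  refine ⟨K * K, by nlinarith, fun N hN w y d hd hrec hy hdd hcx => ?_⟩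
  have hN1 : N ≤ max N K := le_max_left _ _
  have hN2 : max N K ≤ K * N := by
    apply max_le <;> nlinarith
  have hN3 : K0 * max N K ≤ K * K * N := by
    calc K0 * max N K ≤ K * (K * N) := Nat.mul_le_mul (by omega) hN2
      _ = K * K * N := by ring
  have hexp : Real.exp (B0 * N) ≤ Real.exp (|B0| * (max N K : ℕ)) := by
    apply Real.exp_le_exp.2
    have h1 := le_abs_self B0
    have h2 : (N : ℝ) ≤ (max N K : ℕ) := by exact_mod_cast hN1
    calc B0 * (N : ℝ) ≤ |B0| * N := by gcongr
      _ ≤ _ := by gcongr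
  obtain ⟨i, j, h1, h2, h3⟩ := h0 (max N K) (by have := le_max_right N K; omega) w y d hd
    (fun k hk => hrec k (lt_of_lt_of_le hk hN3)) (hy.trans hexp) (hdd.trans hexp)
    (fun m hm1 hm2 => by
      refine le_trans ?_ (hcx m (hN1.trans hm1) (hm2.trans hN3))
      exact_mod_cast wc_mono w hN3 m)
  exact ⟨i, j, h1, h2.trans hN3, h3⟩

end Pool.Agent.TH932.S2.F
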