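import Mathlib
import Pool.Agent.TH932.S2.F.Win
import Pool.Agent.TH932.S2.F.Pq
import Pool.Agent.TH932.App2

set_option autoImplicit false

/-!
# Trajectories of linear complexity enter finitely many cycles
-/

namespace Pool.Agent.TH932.S2.F

open Filter Topology Pool.Agent.TH932.Words

variable {α : Type*}

/-- the map `G` with letters `f` and multiplier `d` -/
structure Mp (T : Dt α) (d : ℤ) (f : ℤ → α) (G : ℤ → ℤ) : Prop where
  hd : IsCoprime d (T.p : ℤ)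
  hG : ∀ x, (T.p : ℤ) * G x = (T.q : ℤ) ^ T.δ (f x) * x + d * T.β (f x)

variable {T : Dt α} {d : ℤ} {f : ℤ → α} {G : ℤ → ℤ}

lemma Mp.d_abs (h : Mp T d f G) : 1 ≤ |d| := by
  apply Int.one_le_abs
  intro h0
  have h1 := h.hd
  rw [h0, isCoprime_zero_left] at h1
  have h2 := T.hp
  rcases Int.isUnit_iff.1 h1 with h3 | h3 <;> omega

/-- the word of a trajectory -/
def wd (f : ℤ → α) (G : ℤ → ℤ) (x : ℤ) (k : ℕ) : α := f (G^[k] x)

lemma wd_shift (f : ℤ → α) (G : ℤ → ℤ) (x : ℤ) (i : ℕ) :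
    wd f G (G^[i] x) = fun k => wd f G x (i + k) := by
  funext k
  unfold wd
  rw [← Function.iterate_add_apply, add_comm]

/-- repetitions -/
lemma fin1 (hbd : BDStmt) [Finite α] (T : Dt α) (A : ℝ) :
    ∃ K : ℕ, 1 ≤ K ∧ ∀ N : ℕ, 1 ≤ N → ∀ (d : ℤ) (f : ℤ → α) (G : ℤ → ℤ), Mp T d f G →
    |(d : ℝ)| ≤ Real.exp N → ∀ x : ℤ, |(x : ℝ)| ≤ Real.exp N →
    (∀ m, N ≤ m → m ≤ K * N → (wc (wd f G x) (K * N) m : ℝ) ≤ A * m) →
    ∃ i j, i < j ∧ j ≤ K * N ∧ G^[i] x = G^[j] x := by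
  obtain ⟨K, hK, h⟩ := finitary hbd T A 1
  refine ⟨K, hK, fun N hN d f G hG hdN x hx hcx => ?_⟩
  refine h N hN (wd f G x) (fun k => G^[k] x) d hG.hd (fun k _ => ?_) ?_ ?_ hcx
  · rw [Function.iterate_succ_apply', hG.hG]
    rfl
  · simpa using hx
  · simpa using hdN

/-- constant terms along a trajectory -/
lemma coef (hG : Mp T d f G) (z : ℤ) (k : ℕ) :
    ∃ (o : ℕ) (Q : ℤ), (T.p : ℤ) ^ k * G^[k] z = (T.q : ℤ) ^ o * z + d * Q ∧
      |Q| ≤ (2 * T.M : ℤ) ^ k := by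
  have hMz : (1 : ℤ) ≤ T.M := by exact_mod_cast T.hM1
  induction k with
  | zero => exact ⟨0, 0, by simp, by simp⟩
  | succ k ih =>
    obtain ⟨o, Q, h1, h2⟩ := ih
    refine ⟨o + T.δ (f (G^[k] z)), (T.q : ℤ) ^ T.δ (f (G^[k] z)) * Q
      + (T.p : ℤ) ^ k * T.β (f (G^[k] z)), ?_, ?_⟩
    · rw [Function.iterate_succ_apply', pow_succ, pow_add]
      have h3 := hG.hG (G^[k] z)
      linear_combination (T.p : ℤ) ^ k * h3 + (T.q : ℤ) ^ T.δ (f (G^[k] z)) * h1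
    · have h3 : |((T.q : ℤ)) ^ T.δ (f (G^[k] z))| ≤ T.M := by
        rw [abs_of_nonneg (by positivity)]
        exact_mod_cast T.hqM _
      have h4 : |((T.p : ℤ)) ^ k| ≤ (2 * T.M : ℤ) ^ k := by
        rw [abs_of_nonneg (by positivity)]
        have h3 : ((T.p : ℤ)) ^ k ≤ (T.M : ℤ) ^ k := by exact_mod_cast T.p_bound k
        refine h3.trans ?_
        gcongr; linarith
      refine (abs_add_le _ _).trans ?_
      rw [abs_mul, abs_mul]
      calc |(T.q : ℤ) ^ T.δ (f (G^[k] z))| * |Q| + |(T.p : ℤ) ^ k| * |T.β (f (G^[k] z))|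
          ≤ T.M * (2 * T.M : ℤ) ^ k + (2 * T.M : ℤ) ^ k * T.M := by
            have := T.hβM (f (G^[k] z))
            gcongr
        _ = (2 * T.M : ℤ) ^ (k + 1) := by ring

/-- periodic points are bounded in terms of the period -/
lemma per_bound (hG : Mp T d f G) {z : ℤ}
    {π : ℕ} (hπ : 1 ≤ π) (hz : G^[π] z = z) : |z| ≤ |d| * (2 * T.M : ℤ) ^ π := by
  obtain ⟨o, Q, h1, h2⟩ := coef hG z π
  rw [hz] at h1
  have h3 : ((T.p : ℤ) ^ π - (T.q : ℤ) ^ o) * z = d * Q := by linear_combination h1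
  have h4 : (T.p : ℤ) ^ π - (T.q : ℤ) ^ o ≠ 0 := by
    intro h0
    have h5 : (T.p : ℤ) ^ π = (T.q : ℤ) ^ o := by linarith
    have h6 := T.cop π o
    rw [← h5] at h6
    have h7 : IsUnit ((T.p : ℤ) ^ π) := isCoprime_self.1 h6
    have h8 : (1 : ℤ) < (T.p : ℤ) ^ π := by
      apply one_lt_pow₀
      · have := T.hp; exact_mod_cast (show 1 < T.p by omega)
      · omega
    rcases Int.isUnit_iff.1 h7 with h9 | h9 <;> omega
  have h5 : (1 : ℤ) ≤ |(T.p : ℤ) ^ π - (T.q : ℤ) ^ o| := Int.one_le_abs h4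
  have h6 : |(T.p : ℤ) ^ π - (T.q : ℤ) ^ o| * |z| = |d| * |Q| := by
    rw [← abs_mul, ← abs_mul, h3]
  calc |z| ≤ |(T.p : ℤ) ^ π - (T.q : ℤ) ^ o| * |z| := by nlinarith [abs_nonneg z]
    _ = |d| * |Q| := h6
    _ ≤ _ := by gcongr

/-- cycles contain small elements -/
lemma small (hsu : SUStmt) (hkp : KPStmt) (T : Dt α) {ε : ℝ} (hε : 0 < ε) :
    ∃ n0 : ℕ, ∀ (d : ℤ) (f : ℤ → α) (G : ℤ → ℤ), Mp T d f G → ∀ (z : ℤ) (π : ℕ), n0 ≤ π →
      G^[π] z = z → ∃ k, k ≤ π ∧ |((G^[k] z : ℤ) : ℝ)| ≤ |(d : ℝ)| * Real.exp (ε * π) := by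
  obtain ⟨n0, h0⟩ := pow_gap hsu hkp T.hp T.hq T.hpq (half_pos hε)
  have hMr : (1 : ℝ) ≤ T.M := by exact_mod_cast T.hM1
  -- `4 M n < e ^ (ε n / 2)` for large `n`
  have hlim : Tendsto (fun n : ℕ => ((4 * T.M * n : ℝ)) * Real.exp (-(ε / 2 * n))) atTop (𝓝 0) := by
    have h1 := (Real.tendsto_pow_mul_exp_neg_atTop_nhds_zero 1).comp
      ((tendsto_natCast_atTop_atTop (R := ℝ)).const_mul_atTop (half_pos hε))
    have h2 := h1.const_mul (4 * T.M / (ε / 2))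
    rw [mul_zero] at h2
    refine h2.congr fun n => ?_
    simp only [Function.comp_apply, pow_one]
    field_simp
  obtain ⟨n1, h1⟩ := eventually_atTop.1 (hlim.eventually_lt_const (show (0 : ℝ) < 1 by norm_num))
  refine ⟨n0 + n1 + 1, fun d f G hG z π hπ hz => ?_⟩
  by_contra hcon
  push Not at hcon
  have hn1 := h1 π (by omega)
  set X := Real.exp (ε * π) with hX
  have hXp : 0 < X := Real.exp_pos _
  have hd1 : (1 : ℝ) ≤ |(d : ℝ)| := by exact_mod_cast hG.d_abs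
  set y : ℕ → ℝ := fun k => ((G^[k] z : ℤ) : ℝ) with hy
  have hyX : ∀ k, k ≤ π → |(d : ℝ)| * X < |y k| := hcon
  have hy0 : ∀ k, k ≤ π → y k ≠ 0 := fun k hk h => by
    have := hyX k hk
    rw [h, abs_zero] at this
    have : 0 < |(d : ℝ)| * X := by positivity
    linarith
  have hπr : (1 : ℝ) ≤ π := by exact_mod_cast (by omega : 1 ≤ π)
  have hMX : 4 * T.M * π * Real.exp (-(ε / 2 * π)) < 1 := hn1
  have hXe : X⁻¹ = Real.exp (-(ε / 2 * π)) * Real.exp (-(ε / 2 * π)) := by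
    rw [hX, ← Real.exp_neg, ← Real.exp_add]; ring_nf
  have he1 : Real.exp (-(ε / 2 * π)) ≤ 1 := by
    rw [Real.exp_le_one_iff]
    have : 0 ≤ ε / 2 * (π : ℝ) := by positivity
    linarith
  set δ : ℕ → ℕ := fun k => T.δ (f (G^[k] z)) with hδ
  set β : ℕ → ℝ := fun k => d * ((T.β (f (G^[k] z)) : ℤ) : ℝ) with hβ
  have hq0 : (0 : ℝ) < T.q := by
    have := T.hq
    exact_mod_cast (by omega : 0 < T.q)
  have hp0 : (0 : ℝ) < T.p := by
    have := T.hp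
    exact_mod_cast (by omega : 0 < T.p)
  have hrec : ∀ k, (T.p : ℝ) * y (k + 1) = (T.q : ℝ) ^ δ k * y k + β k := by
    intro k
    have := hG.hG (G^[k] z)
    simp only [hy, hδ, hβ]
    rw [Function.iterate_succ_apply']
    exact_mod_cast this
  set a : ℕ → ℝ := fun k => β k / ((T.q : ℝ) ^ δ k * y k) with ha
  have hfac : ∀ n, n ≤ π → (T.p : ℝ) ^ n * y n
      = (T.q : ℝ) ^ (∑ k ∈ Finset.range n, δ k) * y 0 * ∏ k ∈ Finset.range n, (1 + a k) := by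
    intro n
    induction n with
    | zero => intro _; simp
    | succ n ih =>
      intro hn
      have h2 := ih (by omega)
      have h3 := hrec n
      have h4 : (T.q : ℝ) ^ δ n * y n * (1 + a n) = (T.q : ℝ) ^ δ n * y n + β n := by
        have := hy0 n (by omega)
        simp only [ha]
        field_simp
      rw [Finset.sum_range_succ, Finset.prod_range_succ, pow_succ, pow_add]
      calc (T.p : ℝ) ^ n * T.p * y (n + 1) = (T.p : ℝ) ^ n * (T.p * y (n + 1)) := by ring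
        _ = (T.p : ℝ) ^ n * ((T.q : ℝ) ^ δ n * y n * (1 + a n)) := by rw [h3, h4]
        _ = ((T.p : ℝ) ^ n * y n) * ((T.q : ℝ) ^ δ n * (1 + a n)) := by ring
        _ = _ := by rw [h2]; ring
  have hyπ : y π = y 0 := by
    simp only [hy]
    rw [hz]; rfl
  set o := ∑ k ∈ Finset.range π, δ k with ho
  have hmain : (T.p : ℝ) ^ π = (T.q : ℝ) ^ o * ∏ k ∈ Finset.range π, (1 + a k) := by
    have h2 := hfac π le_rfl
    rw [hyπ] at h2
    have h3 := hy0 0 (Nat.zero_le _)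
    apply mul_right_cancel₀ h3
    rw [h2]; ring
  have haX : ∀ k ∈ Finset.range π, ‖a k‖ ≤ T.M * X⁻¹ := by
    intro k hk
    rw [Finset.mem_range] at hk
    have h2 := hyX k hk.le
    have h3 : |β k| ≤ |(d : ℝ)| * T.M := by
      have h5 : |((T.β (f (G^[k] z)) : ℤ) : ℝ)| ≤ T.M := by exact_mod_cast T.hβM (f (G^[k] z))
      simp only [hβ]
      rw [abs_mul]
      gcongr
    have h4 : (1 : ℝ) ≤ (T.q : ℝ) ^ δ k := by
      apply one_le_pow₀
      have := T.hq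
      exact_mod_cast (by omega : 1 ≤ T.q)
    have e5 : ‖a k‖ = |β k| / ((T.q : ℝ) ^ δ k * |y k|) := by
      rw [Real.norm_eq_abs, ha]
      simp only
      rw [abs_div, abs_mul ((T.q : ℝ) ^ δ k), abs_of_pos (by positivity : (0 : ℝ) < (T.q : ℝ) ^ δ k)]
    rw [e5, ← div_eq_mul_inv]
    have h5 : |(d : ℝ)| * X ≤ (T.q : ℝ) ^ δ k * |y k| := by nlinarith [abs_nonneg (y k)]
    calc |β k| / ((T.q : ℝ) ^ δ k * |y k|) ≤ |(d : ℝ)| * T.M / (|(d : ℝ)| * X) := by gcongr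
      _ = T.M / X := by
          have : |(d : ℝ)| ≠ 0 := by linarith
          field_simp
  have hsum : ∑ k ∈ Finset.range π, ‖a k‖ ≤ T.M * π * X⁻¹ := by
    refine (Finset.sum_le_sum haX).trans ?_
    rw [Finset.sum_const, Finset.card_range, nsmul_eq_mul]
    apply le_of_eq; ring
  have hprod := Finset.norm_prod_one_add_sub_one_le (Finset.range π) a
  have hs4 : 4 * (T.M * π * X⁻¹) < Real.exp (-(ε / 2 * π)) := by
    rw [hXe]
    have h5 := Real.exp_pos (-(ε / 2 * π))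
    calc 4 * (T.M * π * (Real.exp (-(ε / 2 * π)) * Real.exp (-(ε / 2 * π))))
        = (4 * T.M * π * Real.exp (-(ε / 2 * π))) * Real.exp (-(ε / 2 * π)) := by ring
      _ < 1 * Real.exp (-(ε / 2 * π)) := by gcongr
      _ = _ := one_mul _
  have hs0 : 0 ≤ T.M * π * X⁻¹ := by positivity
  have hs1 : T.M * π * X⁻¹ ≤ 1 / 4 := by linarith
  have hexp : Real.exp (∑ k ∈ Finset.range π, ‖a k‖) - 1 ≤ 2 * (T.M * π * X⁻¹) := by
    have h5 : Real.exp (∑ k ∈ Finset.range π, ‖a k‖) ≤ Real.exp (T.M * π * X⁻¹) :=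
      Real.exp_le_exp.2 hsum
    have h6 : |Real.exp (T.M * π * X⁻¹) - 1| ≤ 2 * |T.M * π * X⁻¹| := by
      apply Real.abs_exp_sub_one_le
      rw [abs_of_nonneg hs0]; linarith
    have h7 := (abs_le.1 h6).2
    rw [abs_of_nonneg hs0] at h7
    linarith
  have hP : |∏ k ∈ Finset.range π, (1 + a k) - 1| ≤ 2 * (T.M * π * X⁻¹) := by
    rw [← Real.norm_eq_abs]; exact hprod.trans hexp
  set Pr := ∏ k ∈ Finset.range π, (1 + a k) with hPr
  have hqo : (0 : ℝ) < (T.q : ℝ) ^ o := by positivity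
  have hPl : 1 / 2 ≤ Pr := by
    have := (abs_le.1 hP).1
    linarith
  have hq2 : (T.q : ℝ) ^ o ≤ 2 * (T.p : ℝ) ^ π := by
    rw [hmain]; nlinarith
  have hdiff : |(T.p : ℝ) ^ π - (T.q : ℝ) ^ o| ≤ (T.p : ℝ) ^ π * (4 * (T.M * π * X⁻¹)) := by
    have e1 : (T.p : ℝ) ^ π - (T.q : ℝ) ^ o = (T.q : ℝ) ^ o * (Pr - 1) := by
      rw [hmain]; ring
    rw [e1, abs_mul, abs_of_pos hqo]
    calc (T.q : ℝ) ^ o * |Pr - 1| ≤ (2 * (T.p : ℝ) ^ π) * (2 * (T.M * π * X⁻¹)) := by gcongr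
      _ = _ := by ring
  have hlow := h0 π o (by omega)
  have hpp : (0 : ℝ) < (T.p : ℝ) ^ π := by positivity
  have hfin := hlow.trans hdiff
  have h7 : Real.exp (-(ε / 2 * π)) ≤ 4 * (T.M * π * X⁻¹) := le_of_mul_le_mul_left hfin hpp
  linarith

end Pool.Agent.TH932.S2.F
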