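import Mathlib
import Pool.Agent.TH932.S2.F.Cyc

set_option autoImplicit false

/-!
# Trajectories of linear complexity enter finitely many cycles, continued
-/

namespace Pool.Agent.TH932.S2.F

open Filter Topology Pool.Agent.TH932.Words

variable {α : Type*} {T : Dt α} {d : ℤ} {f : ℤ → α} {G : ℤ → ℤ}

lemma iter_per {z : ℤ} {π : ℕ} (hz : G^[π] z = z) (a : ℕ) : G^[a] z = G^[a % π] z :=
  (Function.IsPeriodicPt.iterate_mod_apply (f := G) hz a).symm

/-- a repetition along a cycle -/
lemma per_le {z : ℤ} (hz : z ∈ Function.periodicPts G) {i j : ℕ} (hij : i < j)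
    (h : G^[i] z = G^[j] z) : Function.minimalPeriod G z ≤ j - i := by
  obtain ⟨d, rfl⟩ := Nat.exists_eq_add_of_lt hij
  have h1 : Function.minimalPeriod G (G^[i] z) = Function.minimalPeriod G z :=
    Function.minimalPeriod_apply_iterate hz i
  have h2 : G^[d + 1] (G^[i] z) = G^[i] z := by
    rw [← Function.iterate_add_apply, add_comm, ← add_assoc]
    exact h.symm
  rw [← h1, show i + d + 1 - i = d + 1 by omega]
  exact Function.IsPeriodicPt.minimalPeriod_le (by omega) h2

/-- **Cycles of linear complexity are short.** -/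
theorem cyc_bound (hbd : BDStmt) (hsu : SUStmt) (hkp : KPStmt) [Finite α] (T : Dt α) (A : ℝ) :
    ∃ K : ℕ, ∀ (d : ℤ) (f : ℤ → α) (G : ℤ → ℤ), Mp T d f G → ∀ z ∈ Function.periodicPts G,
      ∀ M : ℕ, 1 ≤ M → (∀ m : ℕ, M ≤ m → (cx (wd f G z) m : ℝ) ≤ A * m) →
      (Function.minimalPeriod G z : ℝ) ≤ K * (Real.log |(d : ℝ)| + M) := by
  obtain ⟨K, hK, h1⟩ := fin1 hbd T A
  have hKr : (1 : ℝ) ≤ K := by exact_mod_cast hK
  set ε : ℝ := 1 / (4 * K) with hε
  have hεp : 0 < ε := by positivity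
  obtain ⟨n0, h2⟩ := small hsu hkp T hεp
  refine ⟨n0 + 4 * K, fun d f G hG z hz M hM hcx => ?_⟩
  have hMr : (1 : ℝ) ≤ M := by exact_mod_cast hM
  have hd1 : (1 : ℝ) ≤ |(d : ℝ)| := by exact_mod_cast hG.d_abs
  set ld := Real.log |(d : ℝ)| with hld
  have hld0 : 0 ≤ ld := Real.log_nonneg hd1
  set π := Function.minimalPeriod G z with hπ
  have hzπ : G^[π] z = z := Function.iterate_minimalPeriod
  have hn0 : (0 : ℝ) ≤ n0 := by positivity
  push_cast
  by_cases hc : n0 ≤ π
  · obtain ⟨k, hk, hks⟩ := h2 d f G hG z π hc hzπ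
    set N := ⌈ε * π + ld⌉₊ + M with hN
    have hN1 : ε * π + ld ≤ N := by
      rw [hN]
      push_cast
      have := Nat.le_ceil (ε * (π : ℝ) + ld)
      linarith
    have hN2 : (N : ℝ) ≤ ε * π + ld + 2 * M := by
      rw [hN]
      push_cast
      have := Nat.ceil_lt_add_one (show 0 ≤ ε * (π : ℝ) + ld by positivity)
      linarith
    have hde : |(d : ℝ)| = Real.exp ld := (Real.exp_log (by linarith)).symm
    have hεπ : 0 ≤ ε * (π : ℝ) := by positivity
    obtain ⟨i, j, hij, hj, he⟩ := h1 N (by omega) d f G hG (by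
        rw [hde]
        exact Real.exp_le_exp.2 (by linarith)) (G^[k] z) (by
        refine hks.trans ?_
        rw [hde, ← Real.exp_add]
        exact Real.exp_le_exp.2 (by linarith)) (by
        intro m hm _
        refine le_trans ?_ (hcx m (by omega))
        have h3 : wc (wd f G (G^[k] z)) (K * N) m ≤ cx (wd f G z) m := by
          refine (wc_le_cx _ _ _).trans ?_
          rw [wd_shift]
          exact App.cx_tail _ _ _
        exact_mod_cast h3)
    rw [← Function.iterate_add_apply, ← Function.iterate_add_apply] at he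
    have h3 := per_le hz (show i + k < j + k by omega) he
    have h4 : π ≤ K * N := by omega
    have h5 : (π : ℝ) ≤ K * (ε * π + ld + 2 * M) := by
      have : (π : ℝ) ≤ K * N := by exact_mod_cast h4
      refine this.trans ?_
      gcongr
    have h6 : (K : ℝ) * (ε * π) = π / 4 := by
      rw [hε]; field_simp
    nlinarith
  · push Not at hc
    have h7 : (π : ℝ) ≤ n0 := by exact_mod_cast hc.le
    nlinarith

/-- **Trajectories of linear complexity enter small cycles**, finitary form. -/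
theorem enter (hbd : BDStmt) (hsu : SUStmt) (hkp : KPStmt) [Finite α] (T : Dt α) (A : ℝ) :
    ∃ K : ℕ, 1 ≤ K ∧ ∀ (d : ℤ) (f : ℤ → α) (G : ℤ → ℤ), Mp T d f G →
      ∀ (x : ℤ) (M N : ℕ), 1 ≤ M → M ≤ N → |(d : ℝ)| ≤ Real.exp N → |(x : ℝ)| ≤ Real.exp N →
        (∀ m : ℕ, M ≤ m → m ≤ K * N → (wc (wd f G x) (K * N) m : ℝ) ≤ A * m) →
        ∃ i ≤ K * N, G^[i] x ∈ Function.periodicPts G ∧
          (Function.minimalPeriod G (G^[i] x) : ℝ) ≤ K * (Real.log |(d : ℝ)| + M) ∧
          ∀ j, |((G^[j] (G^[i] x) : ℤ) : ℝ)| ≤ Real.exp (K * (Real.log |(d : ℝ)| + M)) := by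
  classical
  obtain ⟨K, hK, h1⟩ := fin1 hbd T (max A 1)
  obtain ⟨K2, h2⟩ := cyc_bound hbd hsu hkp T (max A 1)
  have hMr : (1 : ℝ) ≤ T.M := by exact_mod_cast T.hM1
  have hlM := T.log2M
  obtain ⟨K3, hK3⟩ := exists_nat_ge (1 + K2 * Real.log (2 * T.M))
  refine ⟨3 * K + K2 + K3, by omega, ?_⟩
  intro d f G hG x M N hM hMN hdN hx hcx0
  have hN : 1 ≤ N := hM.trans hMN
  have hKN : 1 ≤ K * N := Nat.mul_pos hK hN
  have hKK : 3 * (K * N) ≤ (3 * K + K2 + K3) * N := by
    have : (3 * K + K2 + K3) * N = 3 * (K * N) + (K2 + K3) * N := by ring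
    omega
  set H := (3 * K + K2 + K3) * N with hH
  have hcx : ∀ m : ℕ, M ≤ m → m ≤ H → (wc (wd f G x) H m : ℝ) ≤ max A 1 * m := fun m a b =>
    (hcx0 m a b).trans (by gcongr; exact le_max_left _ _)
  obtain ⟨i, j, hij, hj, he⟩ := h1 N hN d f G hG hdN x hx (fun m hm1 hm2 => by
    refine le_trans ?_ (hcx m (by omega) (by omega))
    exact_mod_cast wc_mono _ (by omega) m)
  refine ⟨i, by omega, ?_⟩
  set z := G^[i] x with hz
  set ρ := j - i with hρ
  have hρ1 : 1 ≤ ρ := by omega
  have hzρ : G^[ρ] z = z := by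
    rw [hz, ← Function.iterate_add_apply, show ρ + i = j by omega]
    exact he.symm
  have hzp : z ∈ Function.periodicPts G := ⟨ρ, hρ1, hzρ⟩
  -- factors of the periodic word
  have hfac : ∀ m t, fac (wd f G z) m t = fac (wd f G z) m (t % ρ) := by
    intro m t
    funext k
    simp only [fac, wd]
    congr 1
    rw [iter_per hzρ (t + k), iter_per hzρ (t % ρ + k), Nat.mod_add_mod]
  have hcz : ∀ m : ℕ, M ≤ m → (cx (wd f G z) m : ℝ) ≤ max A 1 * m := by
    intro m hm
    by_cases hmK : m ≤ K * N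
    · refine le_trans ?_ (hcx m hm (by omega))
      have h2 : cx (wd f G z) m ≤ wc (wd f G x) H m := by
        unfold cx wc
        apply Set.ncard_le_ncard _ (Set.toFinite _)
        rintro _ ⟨t, rfl⟩
        rw [hfac m t]
        have h3 : t % ρ < ρ := Nat.mod_lt _ hρ1
        refine ⟨i + t % ρ, ?_, ?_⟩
        · simp only [Set.mem_ofPred_eq]
          omega
        · rw [hz, wd_shift]
          funext k
          simp only [fac]
          rw [add_assoc]
      exact_mod_cast h2
    · push Not at hmK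
      have h2 : cx (wd f G z) m ≤ ρ := by
        unfold cx
        have hsub : Set.range (fac (wd f G z) m)
            ⊆ fac (wd f G z) m '' (Finset.range ρ : Set ℕ) := by
          rintro _ ⟨t, rfl⟩
          refine ⟨t % ρ, ?_, (hfac m t).symm⟩
          simp only [Finset.coe_range, Set.mem_Iio]
          exact Nat.mod_lt _ hρ1
        refine (Set.ncard_le_ncard hsub (Set.toFinite _)).trans ?_
        refine (Set.ncard_image_le (Finset.finite_toSet _)).trans ?_
        rw [Set.ncard_coe_finset, Finset.card_range]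
      have h3 : (cx (wd f G z) m : ℝ) ≤ m := by
        have : cx (wd f G z) m ≤ m := by omega
        exact_mod_cast this
      have h4 : (0 : ℝ) ≤ m := by positivity
      have h5 : (1 : ℝ) ≤ max A 1 := le_max_right _ _
      nlinarith
  have hd1 : (1 : ℝ) ≤ |(d : ℝ)| := by exact_mod_cast hG.d_abs
  set ld := Real.log |(d : ℝ)| with hld
  have hld0 : 0 ≤ ld := Real.log_nonneg hd1
  have hMr1 : (1 : ℝ) ≤ M := by exact_mod_cast hM
  have hper := h2 d f G hG z hzp M hM hcz
  set π := Function.minimalPeriod G z with hπ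
  have hπ1 : 1 ≤ π := Function.minimalPeriod_pos_of_mem_periodicPts hzp
  have hzπ : G^[π] z = z := Function.iterate_minimalPeriod
  have c1 : (0 : ℝ) ≤ K := by positivity
  have c2 : (0 : ℝ) ≤ K2 := by positivity
  have c3 : (0 : ℝ) ≤ K3 := by positivity
  refine ⟨hzp, ?_, fun j => ?_⟩
  · push_cast
    nlinarith
  · have hzπj : G^[π] (G^[j] z) = G^[j] z := by
      rw [← Function.iterate_add_apply, add_comm, Function.iterate_add_apply, hzπ]
    have h3 : (|((G^[j] z : ℤ) : ℝ)|) ≤ |(d : ℝ)| * (2 * T.M : ℝ) ^ π := by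
      exact_mod_cast per_bound hG hπ1 hzπj
    refine h3.trans ?_
    have e1 : |(d : ℝ)| * (2 * T.M : ℝ) ^ π = Real.exp (ld + Real.log (2 * T.M) * π) := by
      rw [Real.exp_add, hld, Real.exp_log (by linarith), ← Real.rpow_natCast,
        Real.rpow_def_of_pos (by linarith)]
    rw [e1]
    apply Real.exp_le_exp.2
    have h4 : Real.log (2 * T.M) * (π : ℝ) ≤ Real.log (2 * T.M) * (K2 * (ld + M)) := by gcongr
    have h5 : ld + Real.log (2 * T.M) * (K2 * (ld + M))
        ≤ (1 + K2 * Real.log (2 * T.M)) * (ld + M) := by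
      nlinarith
    have h6 : (1 + K2 * Real.log (2 * T.M)) * (ld + M) ≤ K3 * (ld + M) := by gcongr
    push_cast
    nlinarith

end Pool.Agent.TH932.S2.F
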