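import Mathlib
import Pool.Agent.TH932.S2.Bsm3

set_option autoImplicit false

/-!
# Sequences of integers generated by few affine maps of comparable size, without restrictions on
the multipliers
-/

namespace Pool.Agent.TH932.S2.F

open Filter Topology Pool.Agent.TH932.Abs Pool.Agent.TH932.Germs Pool.Agent.TH932.Chi
open Pool.Agent.TH932.Scale

/-- a family of counterexamples -/
structure AFam (p q r : ℕ) (B : ℝ) where
  hp : 2 ≤ p
  hq : 2 ≤ q
  hpq : IsCoprime (q : ℤ) (p : ℤ)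
  hB : 0 ≤ B
  L : ℕ → ℕ
  ℓ : ℕ → Fin r → ℕ
  o : ℕ → Fin r → ℕ
  Q : ℕ → Fin r → ℤ
  s : ℕ → ℕ → Fin r
  y : ℕ → ℕ → ℤ
  hL : ∀ n : ℕ, n + 1 ≤ L n
  hℓ1 : ∀ n i, L n ≤ ℓ n i
  hℓ2 : ∀ n i, (ℓ n i : ℝ) ≤ B * L n
  ho : ∀ n i, (o n i : ℝ) ≤ B * L n
  hQ : ∀ n i, |(Q n i : ℝ)| ≤ Real.exp (B * L n)
  hy : ∀ n, |(y n 0 : ℝ)| ≤ Real.exp (B * L n)
  hrec : ∀ n, ∀ j < n, (p : ℤ) ^ (ℓ n (s n j)) * y n (j + 1) = (q : ℤ) ^ (o n (s n j)) * y n j + Q n (s n j)
  hne : ∀ n i j, i < j → j ≤ n → y n i ≠ y n j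

/-- a value taken along the ultrafilter -/
lemma exists_val {r : ℕ} (f : ℕ → Fin r) : ∃ i, ∀ᶠ n in (UU : Filter ℕ), f n = i := by
  by_contra hcon
  push Not at hcon
  have h1 : ∀ᶠ n in (UU : Filter ℕ), ∀ i, f n ≠ i := by
    rw [eventually_all]
    intro i
    exact hcon i
  obtain ⟨n, hn⟩ := h1.exists
  exact hn (f n) rfl

namespace AFam

variable {p q r : ℕ} {B : ℝ} (F : AFam p q r B)

/-- the scale -/
noncomputable def Lr (n : ℕ) : ℝ := F.L n

lemma tL : Tendsto F.Lr atTop atTop := by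
  refine tendsto_natCast_atTop_atTop.comp (tendsto_atTop_mono (f := fun n => n) (fun n => ?_)
    tendsto_id)
  have := F.hL n
  omega

/-- the limit word -/
noncomputable def sl (j : ℕ) : Fin r := (exists_val fun n => F.s n j).choose

lemma sl_spec (j : ℕ) : ∀ᶠ n in (UU : Filter ℕ), F.s n j = F.sl j :=
  (exists_val fun n => F.s n j).choose_spec

lemma exists_th (i : Fin r) : ∃ t, 0 ≤ t ∧ t ≤ B ∧ near F.Lr (fun n => (F.o n i : ℝ)) t :=
  exists_st F.tL (Eventually.of_forall fun n => ⟨by positivity, F.ho n i⟩)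

/-- asymptotic exponents -/
noncomputable def th (i : Fin r) : ℝ := (F.exists_th i).choose
lemma th_nonneg (i : Fin r) : 0 ≤ F.th i := (F.exists_th i).choose_spec.1
lemma th_le (i : Fin r) : F.th i ≤ B := (F.exists_th i).choose_spec.2.1
lemma th_near (i : Fin r) : near F.Lr (fun n => (F.o n i : ℝ)) (F.th i) :=
  (F.exists_th i).choose_spec.2.2

lemma exists_tt (i : Fin r) : ∃ t, 0 ≤ t ∧ t ≤ B ∧ near F.Lr (fun n => (F.ℓ n i : ℝ)) t :=
  exists_st F.tL (Eventually.of_forall fun n => ⟨by positivity, F.hℓ2 n i⟩)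

/-- asymptotic lengths -/
noncomputable def tt (i : Fin r) : ℝ := (F.exists_tt i).choose
lemma tt_near (i : Fin r) : near F.Lr (fun n => (F.ℓ n i : ℝ)) (F.tt i) :=
  (F.exists_tt i).choose_spec.2.2
lemma tt_ge (i : Fin r) : 1 ≤ F.tt i := by
  refine near_le F.tL (a := fun n => (F.L n : ℝ)) (b := fun n => (F.ℓ n i : ℝ)) ?_ (F.tt_near i)
    (Eventually.of_forall fun n => ?_)
  · intro ε hε
    filter_upwards [L_nonneg F.tL] with n h
    have e : (F.L n : ℝ) = F.Lr n := rfl
    rw [e, one_mul, sub_self, abs_zero]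
    positivity
  · exact_mod_cast F.hℓ1 n i

/-- germ of a quotient of powers -/
noncomputable def NA (i : Fin r) : GG := gm fun n => (p : ℚ) ^ F.ℓ n i / (q : ℚ) ^ F.o n i
/-- germ of a constant term -/
noncomputable def rh (i : Fin r) : GG := gm fun n => (F.Q n i : ℚ) / (q : ℚ) ^ F.o n i
/-- germ of a term -/
noncomputable def gY (j : ℕ) : GG := gm fun n => (F.y n j : ℚ)

include F in
lemma q0 : (q : ℚ) ≠ 0 := by
  have := F.hq
  have : q ≠ 0 := by omega
  exact_mod_cast this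

lemma rel (j : ℕ) : F.NA (F.sl j) * F.gY (j + 1) = F.gY j + F.rh (F.sl j) := by
  unfold NA gY rh
  rw [gm_mul, gm_add, gm_eq]
  filter_upwards [F.sl_spec j, ev_of_atTop (eventually_gt_atTop j)] with n h1 h2
  have h3 := F.hrec n j h2
  rw [h1] at h3
  have h4 : (p : ℚ) ^ F.ℓ n (F.sl j) * F.y n (j + 1) = (q : ℚ) ^ (F.o n (F.sl j)) * F.y n j
      + F.Q n (F.sl j) := by exact_mod_cast h3
  have h5 := F.q0
  field_simp
  linear_combination h4

/-- the character -/
noncomputable def χ (g : ℝ × ℝ) : GG := ch2 F.tL F.hp F.hq g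
/-- the constant field -/
noncomputable abbrev K : Subfield GG := KK F.Lr F.tL
/-- evaluation -/
noncomputable abbrev ev : Rg F.tL →+* GG := ev2 F.tL F.hp F.hq

lemma NA_const (i : Fin r) : ∃ κ : F.K, κ ≠ 0 ∧ F.NA i = (κ : GG) * F.χ (F.tt i, F.th i) := by
  obtain ⟨κ, h0, h1⟩ := exists_const2 F.tL F.hp F.hq (F.tt i) (F.th i)
    (fun n => ((F.ℓ n i : ℕ) : ℤ)) (fun n => ((F.o n i : ℕ) : ℤ)) (by
      intro ε hε
      filter_upwards [F.tt_near i ε hε] with n h2
      rw [Int.cast_natCast]; exact h2) (by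
      intro ε hε
      filter_upwards [F.th_near i ε hε] with n h2
      rw [Int.cast_natCast]; exact h2)
  refine ⟨κ, h0, ?_⟩
  unfold NA χ
  rw [← h1]
  simp only [zpow_natCast]

/-- the generators -/
noncomputable def zf : Option (Fin r) → GG
  | none => F.gY 0
  | some i => F.rh i

/-- the chain -/
lemma chain (e : ℕ) : ∃ (M : F.K) (h : ℝ × ℝ) (P : Option (Fin r) → Rg F.tL),
    M ≠ 0 ∧ (∀ j, Sup B h (P j)) ∧
    (M : GG) * F.χ h * F.gY e = ∑ j, F.ev (P j) * F.zf j := by
  classical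
  induction e with
  | zero =>
    refine ⟨1, 0, fun j => if j = none then 1 else 0, one_ne_zero, ?_, ?_⟩
    · intro j
      simp only
      split_ifs
      · rw [AddMonoidAlgebra.one_def]
        exact Sup.single _ (Cone.refl _ _)
      · exact Sup.zero
    · have h1 : ∀ j : Option (Fin r), F.ev (if j = none then 1 else 0)
          * F.zf j = if j = none then F.zf none else 0 := by
        intro j
        split_ifs with h
        · rw [h, map_one, one_mul]
        · rw [map_zero, zero_mul]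
      simp only [h1]
      rw [Finset.sum_ite_eq' Finset.univ none]
      simp only [Finset.mem_univ, if_true, zf]
      have hz : F.χ 0 = 1 := ch2_zero _ _ _
      rw [hz]
      push_cast
      ring
  | succ e ih =>
    obtain ⟨M, h, P, hM, hP, hr⟩ := ih
    obtain ⟨κ, hκ, hκ'⟩ := F.NA_const (F.sl e)
    set γ : ℝ × ℝ := (F.tt (F.sl e), F.th (F.sl e)) with hγ
    have hc0 : Cone B γ 0 := by
      have h1 := F.tt_ge (F.sl e)
      have h2 := F.th_le (F.sl e)
      have h3 := F.hB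
      refine ⟨by simp only [hγ, Prod.fst_zero]; linarith, ?_⟩
      simp only [hγ, Prod.fst_zero, Prod.snd_zero, sub_zero]
      nlinarith
    have hc1 : Cone B (h + γ) h := by
      have := hc0.add h
      rwa [add_zero] at this
    set Λ : Option (Fin r) → Rg F.tL := fun j => if j = some (F.sl e) then 1 else 0 with hΛ
    refine ⟨M * κ, h + γ, fun j => P j + AddMonoidAlgebra.single h M * Λ j, mul_ne_zero hM hκ,
      ?_, ?_⟩
    · intro j
      refine ((hP j).mono hc1).add ?_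
      simp only [hΛ]
      split_ifs
      · rw [mul_one]
        exact Sup.single _ hc1
      · rw [mul_zero]
        exact Sup.zero
    · simp only [map_add, map_mul, add_mul, Finset.sum_add_distrib, mul_assoc]
      rw [← Finset.mul_sum, ← hr, ev2_single]
      have e1 : F.χ (h + γ) = F.χ h * F.χ γ := ch2_add _ _ _ _ _
      have e2 : ch2 F.tL F.hp F.hq h = F.χ h := rfl
      have h1 : ∀ j : Option (Fin r), F.ev (Λ j) * F.zf j
          = if j = some (F.sl e) then F.zf (some (F.sl e)) else 0 := by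
        intro j
        simp only [hΛ]
        split_ifs with h
        · rw [h, map_one, one_mul]
        · rw [map_zero, zero_mul]
      simp only [h1]
      rw [Finset.sum_ite_eq' Finset.univ (some (F.sl e))]
      simp only [Finset.mem_univ, if_true, zf]
      have h2 := F.rel e
      rw [hκ'] at h2
      rw [e1, e2]
      push_cast
      linear_combination (M : GG) * F.χ h * h2

lemma int_b (b : ℕ) (M : Submonoid ℤ) (y : ℕ → ℤ) :
    gm (fun n => (y n : ℚ)) ∈ SS F.Lr (Rb b M) 0 := by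
  rw [mem_SS]
  intro ε hε
  filter_upwards [L_nonneg F.tL] with n h1
  refine ⟨1, 1, y n, 0, one_ne_zero, ?_, M.one_mem, by simp, ?_⟩
  · rw [Int.cast_one, abs_one]
    exact Real.one_le_exp (by positivity)
  · have : 0 ≤ ε * F.Lr n := by positivity
    push_cast
    linarith

/-- the size parameter -/
noncomputable def Bq (_ : AFam p q r B) : ℝ := B * Real.log q + B

lemma rh_p (i : Fin r) : F.rh i ∈ SS F.Lr (Rb p (cop p)) 0 := by
  unfold rh
  rw [mem_SS]
  intro ε hε
  filter_upwards [L_nonneg F.tL] with n h1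
  have hq := F.q0
  refine ⟨1, (q : ℤ) ^ (F.o n i), F.Q n i, 0, one_ne_zero, ?_, ?_, ?_, ?_⟩
  · rw [Int.cast_one, abs_one]
    exact Real.one_le_exp (by positivity)
  · exact F.hpq.pow_left
  · push_cast
    field_simp
  · have : 0 ≤ ε * F.Lr n := by positivity
    push_cast
    linarith

lemma o_log (n : ℕ) (i : Fin r) : (F.o n i : ℝ) * Real.log q ≤ B * Real.log q * F.Lr n := by
  have hlq : 0 < Real.log q := Real.log_pos (by exact_mod_cast F.hq)
  have h1 := F.ho n i
  calc (F.o n i : ℝ) * Real.log q ≤ (B * F.L n) * Real.log q := by gcongr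
    _ = B * Real.log q * F.Lr n := by unfold Lr; ring

lemma rh_q (M : Submonoid ℤ) (i : Fin r) : F.rh i ∈ SS F.Lr (Rb q M) (-(B * Real.log q)) := by
  unfold rh
  rw [mem_SS]
  intro ε hε
  filter_upwards [L_nonneg F.tL] with n h1
  have hq := F.q0
  refine ⟨1, 1, F.Q n i, -(F.o n i : ℤ), one_ne_zero, ?_, Submonoid.one_mem _, ?_, ?_⟩
  · rw [Int.cast_one, abs_one]
    exact Real.one_le_exp (by positivity)
  · rw [zpow_neg, zpow_natCast]
    push_cast
    field_simp
  · have h2 := F.o_log n i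
    have h6 : 0 ≤ ε * F.Lr n := by positivity
    push_cast
    linarith

lemma rh_i (i : Fin r) : F.rh i ∈ SS F.Lr Rinf (-B) := by
  unfold rh
  rw [mem_SS]
  intro ε hε
  filter_upwards [L_nonneg F.tL] with n h1
  unfold Rinf
  push_cast
  have hq1 : (1 : ℝ) ≤ (q : ℝ) ^ (F.o n i) := by
    have := F.hq
    have : (1 : ℝ) ≤ q := by exact_mod_cast (by omega : 1 ≤ q)
    exact one_le_pow₀ this
  rw [abs_div, abs_of_nonneg (by linarith : (0 : ℝ) ≤ (q : ℝ) ^ (F.o n i))]
  calc |(F.Q n i : ℝ)| / (q : ℝ) ^ (F.o n i) ≤ |(F.Q n i : ℝ)| := div_le_self (abs_nonneg _) hq1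
    _ ≤ Real.exp (B * F.L n) := F.hQ n i
    _ ≤ Real.exp (-(-B - ε) * F.Lr n) := by
        apply Real.exp_le_exp.2
        have h6 : 0 ≤ ε * F.Lr n := by positivity
        have : (F.L n : ℝ) = F.Lr n := rfl
        rw [this]
        linarith

lemma rh_sint (i : Fin r) : Sint F.Lr p q (F.rh i) := by
  have hB := F.hB
  have hlq : 0 < Real.log q := Real.log_pos (by exact_mod_cast F.hq)
  refine ⟨-(B * Real.log q), ?_⟩
  unfold rh
  rw [mem_SS]
  intro ε hε
  filter_upwards [L_nonneg F.tL] with n h1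
  have hq := F.q0
  refine ⟨1, F.Q n i, 0, -(F.o n i : ℤ), one_ne_zero, ?_, ?_, ?_, ?_⟩
  · rw [Int.cast_one, abs_one]
    exact Real.one_le_exp (by positivity)
  · rw [zpow_neg, zpow_natCast, zpow_zero]
    push_cast
    field_simp
  · have h6 : 0 ≤ ε * F.Lr n := by positivity
    have h7 : 0 ≤ B * Real.log q * F.Lr n := by positivity
    push_cast
    linarith
  · have h2 := F.o_log n i
    have h6 : 0 ≤ ε * F.Lr n := by positivity
    push_cast
    linarith

lemma Y0_i : F.gY 0 ∈ SS F.Lr Rinf (-B) := by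
  unfold gY
  rw [mem_SS]
  intro ε hε
  filter_upwards [L_nonneg F.tL] with n h1
  unfold Rinf
  push_cast
  refine (F.hy n).trans (Real.exp_le_exp.2 ?_)
  have h6 : 0 ≤ ε * F.Lr n := by positivity
  have : (F.L n : ℝ) = F.Lr n := rfl
  rw [this]
  linarith

lemma int_sint (y : ℕ → ℤ) : Sint F.Lr p q (gm (fun n => (y n : ℚ))) := by
  refine ⟨0, ?_⟩
  rw [mem_SS]
  intro ε hε
  filter_upwards [L_nonneg F.tL] with n h1
  have : 0 ≤ ε * F.Lr n := by positivity
  refine ⟨1, y n, 0, 0, one_ne_zero, ?_, by simp, ?_, ?_⟩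
  · rw [Int.cast_one, abs_one]
    exact Real.one_le_exp (by positivity)
  · push_cast
    linarith
  · push_cast
    linarith

lemma zf_mem (v : Pl) (j : Option (Fin r)) : F.zf j ∈ Sv F.Lr p q v (-F.Bq) := by
  have hF := filt_v F.tL F.hp F.hq v
  have hB := F.hB
  have hlq : 0 < Real.log q := Real.log_pos (by exact_mod_cast F.hq)
  have h0 : 0 ≤ B * Real.log q := by positivity
  match j with
  | none =>
    cases v
    · exact hF.anti (by unfold Bq; linarith) (F.int_b _ _ _)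
    · exact hF.anti (by unfold Bq; linarith) (F.int_b _ _ _)
    · exact hF.anti (by unfold Bq; linarith) F.Y0_i
  | some i =>
    cases v
    · exact hF.anti (by unfold Bq; linarith) (F.rh_p i)
    · exact hF.anti (by unfold Bq; linarith) (F.rh_q _ i)
    · exact hF.anti (by unfold Bq; linarith) (F.rh_i i)

lemma zf_sint (j : Option (Fin r)) : Sint F.Lr p q (F.zf j) := by
  match j with
  | none => exact F.int_sint _
  | some i => exact F.rh_sint i

include F in
/-- there is no family of counterexamples -/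
theorem contra (hbd : BDStmt) : False := by
  obtain ⟨B', hB'⟩ := hbd p q F.hp F.hq F.hpq F.Lr F.tL _ inferInstance F.zf F.Bq B
    F.zf_mem F.zf_sint
  have hb : ∀ e, F.gY e ∈ SS F.Lr Rinf (-B') := by
    intro e
    obtain ⟨M, h, P, hM, hP, hr⟩ := F.chain e
    exact hB' _ h M P (F.int_b _ _ _) hM (fun j g hg => hP j g hg) hr
  have hlp : 0 < Real.log p := Real.log_pos (by exact_mod_cast F.hp)
  obtain ⟨K, hK⟩ := exists_nat_gt ((B' + 2) / Real.log p)
  rw [div_lt_iff₀ hlp] at hK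
  obtain ⟨i, j, hij, heq⟩ : ∃ i j, i < j ∧ ∀ t : ℕ, t < K → F.sl (i + t) = F.sl (j + t) := by
    obtain ⟨i, j, hij, h1⟩ := Finite.exists_ne_map_eq_of_infinite
      (fun i : ℕ => fun t : Fin K => F.sl (i + t))
    rcases lt_or_gt_of_ne hij with h2 | h2
    · exact ⟨i, j, h2, fun t ht => congrFun h1 ⟨t, ht⟩⟩
    · exact ⟨j, i, h2, fun t ht => (congrFun h1 ⟨t, ht⟩).symm⟩
  -- the types at finitely many places
  have hty : ∀ᶠ n in (UU : Filter ℕ), ∀ t ∈ Finset.range (j + K + 1), F.s n t = F.sl t := by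
    rw [Finset.eventually_all]
    intro t _
    exact F.sl_spec t
  have hbi := hb i
  have hbj := hb j
  unfold gY at hbi hbj
  rw [mem_SS] at hbi hbj
  obtain ⟨n, h1, h2, h3, h4, h5⟩ := (hty.and ((hbi 1 one_pos).and ((hbj 1 one_pos).and
    ((ev_of_atTop (F.tL.eventually_ge_atTop 1)).and
      (ev_of_atTop (eventually_gt_atTop (j + K + 1))))))).exists
  have hit : ∀ k, k ≤ K → ∃ o m : ℕ, F.L n * k ≤ m ∧
      (p : ℤ) ^ m * (F.y n (i + k) - F.y n (j + k)) = (q : ℤ) ^ o * (F.y n i - F.y n j) := by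
    intro k
    induction k with
    | zero => intro _; exact ⟨0, 0, by simp, by simp⟩
    | succ k ih =>
      intro hk
      obtain ⟨o, m, hm, ho⟩ := ih (by omega)
      have e2 := F.hrec n (i + k) (by omega)
      have e3 := F.hrec n (j + k) (by omega)
      rw [h1 (i + k) (Finset.mem_range.2 (by omega))] at e2
      rw [h1 (j + k) (Finset.mem_range.2 (by omega)), ← heq k (by omega)] at e3
      have e4 := F.hℓ1 n (F.sl (i + k))
      refine ⟨F.o n (F.sl (i + k)) + o, m + F.ℓ n (F.sl (i + k)), ?_, ?_⟩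
      · rw [mul_add, mul_one]; omega
      · rw [pow_add, pow_add, ← add_assoc, ← add_assoc]
        linear_combination (p : ℤ) ^ m * e2 - (p : ℤ) ^ m * e3
          + (q : ℤ) ^ F.o n (F.sl (i + k)) * ho
  obtain ⟨o, m, hm, ho⟩ := hit K le_rfl
  have hne : F.y n i - F.y n j ≠ 0 := sub_ne_zero.2 (F.hne n i j hij (by omega))
  have hdvd : ((p : ℤ) ^ F.L n) ^ K ∣ F.y n i - F.y n j := by
    have hcop : IsCoprime ((p : ℤ) ^ m) ((q : ℤ) ^ o) := (F.hpq.symm.pow_left).pow_right
    rw [← pow_mul]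
    exact (pow_dvd_pow _ hm).trans (hcop.dvd_of_dvd_mul_left ⟨_, ho.symm⟩)
  have h6 := Int.le_of_dvd (abs_pos.2 hne) ((dvd_abs _ _).2 hdvd)
  have h7 : ((p : ℝ) ^ F.L n) ^ K ≤ |(F.y n i : ℝ) - F.y n j| := by exact_mod_cast h6
  unfold Rinf at h2 h3
  push_cast at h2 h3
  have h8 : |(F.y n i : ℝ) - F.y n j| ≤ 2 * Real.exp ((B' + 1) * F.Lr n) := by
    refine (abs_sub _ _).trans ?_
    have e1 : -(-B' - 1) * F.Lr n = (B' + 1) * F.Lr n := by ring
    rw [e1] at h2 h3
    linarith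
  have hp0 : (0 : ℝ) < p := by
    have := F.hp
    exact_mod_cast (show 0 < p by omega)
  have h9 : ((p : ℝ) ^ F.L n) ^ K = Real.exp (Real.log p * K * F.Lr n) := by
    rw [← pow_mul, ← Real.rpow_natCast, Real.rpow_def_of_pos hp0]
    push_cast
    unfold Lr
    ring_nf
  have h10 : 2 * Real.exp ((B' + 1) * F.Lr n) < Real.exp ((B' + 2) * F.Lr n) := by
    have e1 : (B' + 2) * F.Lr n = (B' + 1) * F.Lr n + F.Lr n := by ring
    rw [e1, Real.exp_add]
    have h16 : (2 : ℝ) < Real.exp (F.Lr n) := by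
      have h17 : Real.exp 1 ≤ Real.exp (F.Lr n) := Real.exp_le_exp.2 (by linarith)
      have h18 := Real.exp_one_gt_d9
      linarith
    have := Real.exp_pos ((B' + 1) * F.Lr n)
    nlinarith
  have h11 : Real.exp (Real.log p * K * F.Lr n) < Real.exp ((B' + 2) * F.Lr n) := by
    rw [← h9]; linarith
  have h12 := Real.exp_lt_exp.1 h11
  nlinarith

end AFam

/-- **Few affine maps of comparable size.** -/
theorem affine_blocks (hbd : BDStmt) {p q : ℕ} (hp : 2 ≤ p) (hq : 2 ≤ q)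
    (hpq : IsCoprime (q : ℤ) (p : ℤ)) (r : ℕ) {B : ℝ} (hB : 0 ≤ B) :
    ∃ E : ℕ, ∀ (L : ℕ) (ℓ o : Fin r → ℕ) (Q : Fin r → ℤ) (s : ℕ → Fin r) (y : ℕ → ℤ), E ≤ L →
      (∀ i, L ≤ ℓ i) → (∀ i, (ℓ i : ℝ) ≤ B * L) → (∀ i, (o i : ℝ) ≤ B * L) → (∀ i, |(Q i : ℝ)| ≤ Real.exp (B * L)) →
      |(y 0 : ℝ)| ≤ Real.exp (B * L) →
      (∀ j < E, (p : ℤ) ^ (ℓ (s j)) * y (j + 1) = (q : ℤ) ^ (o (s j)) * y j + Q (s j)) →
      ∃ i j, i < j ∧ j ≤ E ∧ y i = y j := by
  by_contra hcon
  push Not at hcon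
  choose L ℓ o Q s y hL hℓ1 hℓ2 ho hQ hy hrec hne using fun n : ℕ => hcon (n + 1)
  let F : AFam p q r B :=
    { hp := hp
      hq := hq
      hpq := hpq
      hB := hB
      L := L
      ℓ := ℓ
      o := o
      Q := Q
      s := s
      y := y
      hL := hL
      hℓ1 := hℓ1
      hℓ2 := hℓ2
      ho := ho
      hQ := hQ
      hy := hy
      hrec := fun n j hj => hrec n j (by omega)
      hne := fun n i j h1 h2 => hne n i j h1 (by omega) }
  exact F.contra hbd

end Pool.Agent.TH932.S2.F
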